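import Pool.Agent.Helper880_UN.Tra
import Pool.Agent.Helper880_R3.Res

/-!
# Subtorsors, with uniform constants
-/

set_option autoImplicit false
set_option linter.unusedSectionVars false
set_option linter.unusedVariables false
set_option maxHeartbeats 400000

open Matrix Module Filter PowerSeries

namespace Pool.Agent.Helper880_UN

open Pool.Agent.Helper880_R3
open Pool.Agent.Y113 (ev Cv GSys ps)
open Pool.Agent.Y118.HV (Hv hh)
open Pool.Agent.Helper880_LF.NB hiding alg_core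
open Pool.Agent.Y118.UL (mk mk_eq mk_eq_zero mk_ne_zero mk_surj ev_ge eval_mk rep qc qc_mk algebraMap_eq U)
open Pool.Agent.TH119.DR Pool.Agent.TH119.MX Pool.Agent.TH127.PT Pool.Agent.Y123.ST Pool.Agent.Y123.GN
open Pool.Agent.Y119.HY (cm cm_pow cm_apply)
open Pool.Agent.Y119.HY renaming E → Ex, E_add → Ex_add, E_zero → Ex_zero, E_mul_neg → Ex_mul_neg, E_exp → Ex_exp

variable {n N r₀ : ℕ}

/-- **the general theorem, with uniform constants** -/
theorem final_uni (hn : 0 < n) {I : Type} {H : I → ℕ} {Z : I → Fin N → Matrix (Fin n) (Fin n) ℚ⟦X⟧}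
    (hU : UF H fun i => zj (Z i)) {𝔤 : Submodule ℂ (Matrix (Fin n) (Fin n) ℂ)} (hLg : IsLie 𝔤) (hq : CF 𝔤) {r : ℕ} (hc : Cod r 𝔤)
    (hI : ∀ i, ∀ X : Fin N → Matrix (Fin n) (Fin n) ℂ, (∀ j, X j ∈ 𝔤) → InfJ (Z i) X)
    {M : Matrix (Fin n) (Fin n) ℚ} (hM : M ^ n = 0) (hM𝔤 : ∀ Y ∈ 𝔤, cm M * Y - Y * cm M ∈ 𝔤)
    (D r₀ s : ℕ) (C₀ : Matrix (Fin r₀) (Fin r₀) ℂ) (C : Matrix (Fin n) (Fin n) ℂ) (hfew : Few s C₀ C)
    (hs : s + (if M = 0 then 0 else 1) ≤ r) :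
    ∃ E : ℕ, ∀ (i : I) (t : ℕ), (H i + 2) ^ E ≤ t → ∀ (L : ℂ) (K : Subfield ℂ), FiniteDimensional ℚ K → finrank ℚ K ≤ D →
      ∀ S : Set (Matrix (Ix r₀ n N) (Ix r₀ n N) ℂ), IsSubtorsor K S →
      Tot C₀ (fun j => C * (NormedSpace.exp ((-L) • cm M) * Hv (Z i j) t)) ∈ S →
      ∀ Y : Fin N → Matrix (Fin n) (Fin n) ℂ, (∀ j, Y j ∈ 𝔤) → ∀ x ∈ S, Zm (fun j => NormedSpace.exp (C * Y j * C⁻¹)) * x ∈ S := by
  classical
  have hMc : (cm M) ^ n = 0 := by
    rw [← cm_pow, hM]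
    exact map_zero _
  by_contra hcon
  simp only [not_exists, not_forall, exists_prop] at hcon
  have h1 : ∀ k : ℕ, ∃ (i : I) (t : ℕ) (L : ℂ) (K : Subfield ℂ) (S : Set (Matrix (Ix r₀ n N) (Ix r₀ n N) ℂ)),
      (H i + 2) ^ k ≤ t ∧ (FiniteDimensional ℚ K ∧ finrank ℚ K ≤ D) ∧ IsSubtorsor K S ∧
      Tot C₀ (fun j => C * (NormedSpace.exp ((-L) • cm M) * Hv (Z i j) t)) ∈ S ∧
      ¬ ∀ Y : Fin N → Matrix (Fin n) (Fin n) ℂ, (∀ j, Y j ∈ 𝔤) → ∀ x ∈ S, Zm (fun j => NormedSpace.exp (C * Y j * C⁻¹)) * x ∈ S := by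
    intro k
    obtain ⟨i, t, ht, L, K, hK, hKD, S, hS, hmem, Y, hY, x, hx, hnot⟩ := hcon k
    exact ⟨i, t, L, K, S, ht, ⟨hK, hKD⟩, hS, hmem, fun h => hnot (h Y hY x hx)⟩
  choose i t L K S hH hK hS hmem hbad using h1
  set z : ℕ → Fin N → Matrix (Fin n) (Fin n) ℂ := fun k j => Hv (Z (i k) j) (t k) with hz
  set μ : ℕ → Fin N → ℂ := fun _ _ => 0 with hμ
  -- the derivations
  have hder : ∀ l, ∀ A ∈ GU 𝔤, ∃ δ : Derivation (U ℚ) (U ℂ) (U ℂ),
      dm δ (gm fun k => Ex (cm M) (-(μ k l)) * z k l) = A * (gm fun k => Ex (cm M) (-(μ k l)) * z k l) ∧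
      ∀ j, j ≠ l → dm δ (gm fun k => Ex (cm M) (-(μ k j)) * z k j) = 0 := by
    intro l A hA
    refine hder_seq hM hM𝔤 (fun d => ?_) l hA
    obtain ⟨E, hE⟩ := rel_uni hU d
    filter_upwards [ev_ge E] with k hk Y hY P hPd hP s
    exact (hE (i k) (t k) ((Nat.pow_le_pow_right (by omega) hk).trans (hH k))).2 Y (hI _ Y hY) P hPd hP s
  have hμ0 : ∀ (k : ℕ) (j : Fin N), Ex (cm M) (-(μ k j)) * z k j = z k j := by
    intro k j
    rw [hμ]
    simp only
    rw [neg_zero, Ex_zero hMc, Matrix.one_mul]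
  -- the period matrices
  have hper : ∀ k, Tot C₀ (fun j => C * (NormedSpace.exp ((-(L k)) • cm M) * Hv (Z (i k) j) (t k))) =
        (Cb C₀ C * Zm (fun _ : Fin N => Ex (cm M) (-(L k)))) * Zm (fun j => Ex (cm M) (-(μ k j)) * z k j) := by
    intro k
    rw [Matrix.mul_assoc, Zm_mul, Cb_Zm]
    unfold Tot
    congr 2
    funext j
    rw [hμ0, Ex_exp hMc]
  have hcT : ∀ k, (Cb C₀ C * Zm (fun _ : Fin N => Ex (cm M) (-(L k)))) * Zm (fun j => Ex (cm M) (-(μ k j)) * z k j) ∈ S k := by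
    intro k
    rw [← hper]
    exact hmem k
  have hdet : ∀ k, (Cb (N := N) C₀ C).det ≠ 0 ∧ (Zm (r₀ := r₀) (fun _ : Fin N => Ex (cm M) (-(L k)))).det ≠ 0 ∧
      (Zm (r₀ := r₀) (fun j => Ex (cm M) (-(μ k j)) * z k j)).det ≠ 0 := by
    intro k
    have h1 := (Matrix.isUnit_iff_isUnit_det _).1 ((hS k).isUnit _ (hcT k))
    rw [Matrix.det_mul, Matrix.det_mul] at h1
    have h2 := h1.ne_zero
    exact ⟨left_ne_zero_of_mul (left_ne_zero_of_mul h2), right_ne_zero_of_mul (left_ne_zero_of_mul h2), right_ne_zero_of_mul h2⟩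
  have hz0 : ∀ k j, (Ex (cm M) (-(μ k j)) * z k j).det ≠ 0 := by
    intro k j
    have h1 := (hdet k).2.2
    rw [Zm_det, Finset.prod_ne_zero_iff] at h1
    exact h1 j (Finset.mem_univ j)
  have hC0 : ∀ k, (Cb C₀ C * Zm (fun _ : Fin N => Ex (cm M) (-(L k)))).det ≠ 0 := by
    intro k
    rw [Matrix.det_mul]
    exact mul_ne_zero (hdet k).1 (hdet k).2.1
  obtain ⟨𝒩, h𝒩1, h𝒩2, h𝒩3⟩ := cst_dim hfew hM hs (hdet 0).1 (fun k => -(L k))
  have hmain := core hn hLg hc hq hz0 hder (fun k => (hK k).1) (fun k => (hK k).2) hC0 𝒩 h𝒩1 h𝒩2 h𝒩3 hS hcT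
  obtain ⟨k, hk⟩ := hmain.exists
  refine hbad k fun Y hY x hx => ?_
  -- the case without points
  by_cases hN : N = 0
  · subst hN
    have h1 : Zm (r₀ := r₀) (fun j : Fin 0 => NormedSpace.exp (C * Y j * C⁻¹)) = 1 := by
      have : (fun j : Fin 0 => NormedSpace.exp (C * Y j * C⁻¹)) = fun _ => 1 := funext fun j => j.elim0
      rw [this, Zm_one]
    rw [h1, Matrix.one_mul]
    exact hx
  have hCd : C.det ≠ 0 := by
    have h1 := (hdet k).1
    unfold Cb at h1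
    rw [Matrix.det_fromBlocks_zero₂₁, Matrix.det_blockDiagonal] at h1
    have h2 := right_ne_zero_of_mul h1
    rw [Finset.prod_ne_zero_iff] at h2
    exact h2 ⟨0, Nat.pos_of_ne_zero hN⟩ (Finset.mem_univ _)
  have hCu : IsUnit C.det := isUnit_iff_ne_zero.2 hCd
  have h2 : ∀ i, fl (ib (r₀ := r₀) i (C * Y i * C⁻¹)) ∈ LL (S k) := by
    intro i
    have h3 : Ex (cm M) (L k) * Y i * Ex (cm M) (-(L k)) ∈ 𝔤 := E_conj hMc hM𝔤 (hY i) (L k)
    have h4 := hk i _ h3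
    have h5 : ib (r₀ := r₀) i (C * Y i * C⁻¹) = (Cb C₀ C * Zm (fun _ : Fin N => Ex (cm M) (-(L k)))) *
        ib i (Ex (cm M) (L k) * Y i * Ex (cm M) (-(L k))) * (Cb C₀ C * Zm (fun _ : Fin N => Ex (cm M) (-(L k))))⁻¹ := by
      have h6 : IsUnit (Cb C₀ C * Zm (fun _ : Fin N => Ex (cm M) (-(L k)))).det := isUnit_iff_ne_zero.2 (hC0 k)
      have h7 : ib (r₀ := r₀) i (C * Y i * C⁻¹) * (Cb C₀ C * Zm (fun _ : Fin N => Ex (cm M) (-(L k)))) =
          (Cb C₀ C * Zm (fun _ : Fin N => Ex (cm M) (-(L k)))) * ib i (Ex (cm M) (L k) * Y i * Ex (cm M) (-(L k))) := by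
        have h8 : Ex (cm M) (-(L k)) * Ex (cm M) (L k) = 1 := by
          have := Ex_mul_neg hMc (-(L k))
          rwa [neg_neg] at this
        rw [Cb_Zm, ib_apply, ib_apply, fromBlocks_multiply, fromBlocks_multiply, ← blockDiagonal_mul, ← blockDiagonal_mul]
        have h9 : (fun j => (Pi.single i (C * Y i * C⁻¹) : Fin N → Matrix (Fin n) (Fin n) ℂ) j * (C * Ex (cm M) (-(L k)))) =
            fun j => C * Ex (cm M) (-(L k)) *
              (Pi.single i (Ex (cm M) (L k) * Y i * Ex (cm M) (-(L k))) : Fin N → Matrix (Fin n) (Fin n) ℂ) j := by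
          funext j
          by_cases hj : j = i
          · subst hj
            rw [Pi.single_eq_same, Pi.single_eq_same]
            calc C * Y j * C⁻¹ * (C * Ex (cm M) (-(L k))) = C * Y j * (C⁻¹ * C) * Ex (cm M) (-(L k)) := by
                  simp only [Matrix.mul_assoc]
              _ = C * (Ex (cm M) (-(L k)) * Ex (cm M) (L k)) * Y j * Ex (cm M) (-(L k)) := by
                  rw [Matrix.nonsing_inv_mul _ hCu, Matrix.mul_one, h8, Matrix.mul_one]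
              _ = _ := by simp only [Matrix.mul_assoc]
          · rw [Pi.single_eq_of_ne hj, Pi.single_eq_of_ne hj, Matrix.zero_mul, Matrix.mul_zero]
        rw [h9]
        simp
      rw [← h7, Matrix.mul_nonsing_inv_cancel_right _ _ h6]
    rw [h5]
    exact h4
  have h3 : fl (∑ i, ib (r₀ := r₀) i (C * Y i * C⁻¹)) ∈ LL (S k) := by
    have h4 : ∀ s : Finset (Fin N), fl (∑ i ∈ s, ib (r₀ := r₀) i (C * Y i * C⁻¹)) ∈ LL (S k) := by
      intro s
      induction s using Finset.induction_on with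
      | empty =>
        rw [Finset.sum_empty, fl_zero]
        exact (LL (S k)).zero_mem
      | insert a s ha ih =>
        rw [Finset.sum_insert ha, fl_add]
        exact (LL (S k)).add_mem (h2 a) ih
    exact h4 _
  rw [sum_ib (fun i => C * Y i * C⁻¹)] at h3
  have h4 := exp_stab (hS k) h3 hx
  rw [exp_Zm] at h4
  exact h4

end Pool.Agent.Helper880_UN
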