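import Pool.Agent.Helper880_UN.Sys

/-!
# Relations between the values come from functional relations, with uniform constants
-/

set_option autoImplicit false
set_option linter.unusedSectionVars false
set_option linter.unusedVariables false
set_option maxHeartbeats 400000

open PowerSeries Matrix

namespace Pool.Agent.Helper880_UN

open Pool.Agent.Y113
open Pool.Agent.Y120.GH
open Pool.Agent.Y120.GF
open Pool.Agent.Helper880_R3 (Cc ec ec_rel Cc_map ec_map curve_HD eval_HD entire_zero exp_zero')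

section words
variable {σ : Type} [Fintype σ]

/-- words -/
def wz {K : Type} [CommMonoid K] {δ : ℕ} (z : σ → K) (b : Fin δ → Option σ) : K := ∏ j, (b j).elim 1 z

/-- uniform families of G-systems -/
structure UF {I : Type} (H : I → ℕ) (h : I → σ → ℚ⟦X⟧) : Prop where
  sys : ∃ q E : ℕ, ∀ i, ∃ T : Polynomial ℤ, T ≠ 0 ∧ GSys q (((H i : ℝ) + 2) ^ E) T (h i)
  rel : ∀ δ : ℕ, ∃ E : ℕ, ∀ i, ∃ (B : Finset (Fin δ → Option σ)) (a : Polynomial ℤ)
    (M : (Fin δ → Option σ) → B → Polynomial ℤ), (fun _ => none) ∈ B ∧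
    LinearIndependent (Polynomial ℚ) (fun b : B => wz (h i) b.1) ∧ a ≠ 0 ∧ Bd E (((H i : ℝ) + 2) ^ E) a ∧
    (∀ b β, Bd E (((H i : ℝ) + 2) ^ E) (M b β)) ∧ ∀ b, ps a * wz (h i) b = ∑ β, ps (M b β) * wz (h i) β.1

/-- the word of a monomial -/
theorem exists_word {δ : ℕ} {m : σ → ℕ} (hm : ∑ s, m s ≤ δ) : ∃ b : Fin δ → Option σ, ∀ (K : Type) [CommMonoid K]
    (z : σ → K), wz z b = ∏ s, z s ^ m s := by
  classical
  set e := Fintype.equivFin σ with he
  have h1 : ∑ i, (fun i => m (e.symm i)) i ≤ δ := by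
    rw [Equiv.sum_comp e.symm m]
    exact hm
  refine ⟨fun j => (wd (Fintype.card σ) δ (fun i => m (e.symm i)) j).map e.symm, fun K _ z => ?_⟩
  have h2 := wd_spec h1 (fun i => z (e.symm i))
  rw [Equiv.prod_comp e.symm (fun s => z s ^ m s)] at h2
  rw [← h2]
  unfold wz yw
  refine Finset.prod_congr rfl fun j _ => ?_
  show ((wd (Fintype.card σ) δ (fun i => m (e.symm i)) j).map e.symm).elim 1 z =
    (wd (Fintype.card σ) δ (fun i => m (e.symm i)) j).elim 1 fun i => z (e.symm i)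
  rcases wd (Fintype.card σ) δ (fun i => m (e.symm i)) j with _ | i
  · rfl
  · rfl

theorem wz_cv {h : σ → ℚ⟦X⟧} {t : ℝ} (ht : 0 < t) (hc : ∀ s, Cv t (h s)) {δ : ℕ} (b : Fin δ → Option σ) :
    ((ev t (wz h b) : ℝ) : ℂ) = wz (fun s => ((ev t (h s) : ℝ) : ℂ)) b := by
  have h1 : ∀ j, Cv t ((b j).elim 1 h) := by
    intro j
    rcases b j with _ | s
    · have := Cv.C (t := t) (1 : ℚ)
      rw [map_one] at this
      exact this
    · exact hc s
  have h2 : ev t (wz h b) = ∏ j, ev t ((b j).elim 1 h) := Cv.ev_prod ht Finset.univ _ fun j _ => h1 j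
  rw [h2]
  unfold wz
  push_cast
  refine Finset.prod_congr rfl fun j _ => ?_
  rcases b j with _ | s
  · show ((ev t 1 : ℝ) : ℂ) = 1
    have h3 : ev t (1 : ℚ⟦X⟧) = 1 := by
      unfold ev
      rw [tsum_eq_single 0]
      · simp
      · intro m hm
        rw [coeff_one, if_neg hm]
        simp
    rw [h3]
    simp
  · rfl

/-- **linear independence with uniform constants** -/
theorem li_uni {I : Type} {H : I → ℕ} {h : I → σ → ℚ⟦X⟧} (hU : UF H h) (δ : ℕ) : ∃ E : ℕ, ∀ (i : I) (t : ℕ),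
    (H i + 2) ^ E ≤ t → 0 < t ∧ (∀ s, Cv (t : ℝ) (h i s)) ∧ ∃ (B : Finset (Fin δ → Option σ)) (a : Polynomial ℤ)
    (M : (Fin δ → Option σ) → B → Polynomial ℤ), Polynomial.aeval (1 / (t : ℝ)) a ≠ 0 ∧
    (∀ b, ps a * wz (h i) b = ∑ β, ps (M b β) * wz (h i) β.1) ∧
    LinearIndependent ℚ (fun β : B => ev (t : ℝ) (wz (h i) β.1)) := by
  classical
  obtain ⟨q, E₀, hsys⟩ := hU.sys
  obtain ⟨E₁, hrel⟩ := hU.rel δ
  obtain ⟨E₂, htens⟩ := tens_uni q E₀ δ
  obtain ⟨Q, E₃, hsub⟩ := sub_uni q E₂ E₁ (Fintype.card (Fin δ → Option σ))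
  obtain ⟨E₄, hG⟩ := t_G (Fintype.card (Fin δ → Option σ)) Q
  refine ⟨(E₃ + 1) * E₄ + (E₀ + 1) + (E₁ + 1), fun i t ht => ?_⟩
  have hX := hb1 (H i)
  have hX2 := hb2 (H i)
  have htR : ((H i : ℝ) + 2) ^ ((E₃ + 1) * E₄ + (E₀ + 1) + (E₁ + 1)) ≤ (t : ℝ) := by exact_mod_cast ht
  have hle : ∀ e, e ≤ (E₃ + 1) * E₄ + (E₀ + 1) + (E₁ + 1) → ((H i : ℝ) + 2) ^ e ≤ (t : ℝ) := fun e he =>
    (pow_le_pow_right₀ hX he).trans htR
  have hlt : ∀ e, e + 1 ≤ (E₃ + 1) * E₄ + (E₀ + 1) + (E₁ + 1) → ((H i : ℝ) + 2) ^ e < (t : ℝ) := fun e he =>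
    (pow_lt_pow_right₀ (by linarith) (Nat.lt_succ_self e)).trans_le (hle _ he)
  have ht0 : (0 : ℝ) < t := lt_of_lt_of_le (by positivity) htR
  have ht0' : 0 < t := by exact_mod_cast ht0
  obtain ⟨T, hT, hS⟩ := hsys i
  obtain ⟨B, a, M, hB, hLI, ha, haB, hMB, hM⟩ := hrel i
  refine ⟨ht0', fun s => ?_, B, a, M, ?_, hM, ?_⟩
  · have h1 := hS.size s
    refine Cv.of_bound (A := ((H i : ℝ) + 2) ^ E₀) (B := ((H i : ℝ) + 2) ^ E₀) ht0 (by positivity) (hlt _ (by omega)) fun m => ?_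
    exact (h1 m).trans (le_of_eq (pow_succ' _ _))
  · exact aeval_ne ha haB.2 (hlt _ (by omega))
  · have h1 := htens _ (H i) T _ (gsys_opt hS)
    have h2 : GSys q (((H i : ℝ) + 2) ^ E₂) T (fun b : Fin δ → Option σ => wz (h i) b) := h1
    have h3 := hsub _ _ (H i) T _ (fun β : B => wz (h i) β.1) (fun β => β.1) a M le_rfl h2 (fun β => rfl) hM haB hMB
    refine hG B _ (a * T) _ ⟨_, hB⟩ t ?_ h3 ?_ hLI ?_ ?_
    · rw [Fintype.card_coe]
      exact Finset.card_le_univ B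
    · exact Finset.prod_eq_one fun j _ => rfl
    · exact (two_pow (H i) _ _).trans (hle _ (by omega))
    · rw [map_mul]
      exact mul_ne_zero (aeval_ne ha haB.2 (hlt _ (by omega))) (aeval_ne hT hS.sizeT (hlt _ (by omega)))

/-- the specialisation at `x` of the variety of functional relations -/
def Vz (h : σ → ℚ⟦X⟧) (x : ℚ) : Set (σ → ℂ) :=
  {y | ∀ R : MvPolynomial σ (Polynomial ℚ), MvPolynomial.aeval h R = 0 →
    MvPolynomial.eval₂ ((algebraMap ℚ ℂ).comp (Polynomial.evalRingHom x)) y R = 0}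

/-- **relations are preserved** -/
theorem lift {h : σ → ℚ⟦X⟧} {t : ℕ} (ht : 0 < t) (hc : ∀ s, Cv (t : ℝ) (h s)) {δ : ℕ} {B : Finset (Fin δ → Option σ)}
    {a : Polynomial ℤ} {M : (Fin δ → Option σ) → B → Polynomial ℤ} (ha : Polynomial.aeval (1 / (t : ℝ)) a ≠ 0)
    (hM : ∀ b, ps a * wz h b = ∑ β, ps (M b β) * wz h β.1)
    (hLI : LinearIndependent ℚ (fun β : B => ev (t : ℝ) (wz h β.1))) {y : σ → ℂ} (hy : y ∈ Vz h (1 / (t : ℚ)))
    (hz : (fun s => ((ev (t : ℝ) (h s) : ℝ) : ℂ)) ∈ Vz h (1 / (t : ℚ))) {P : MvPolynomial σ ℚ} (hP : P.totalDegree ≤ δ)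
    (h0 : MvPolynomial.aeval (fun s => ((ev (t : ℝ) (h s) : ℝ) : ℂ)) P = 0) : MvPolynomial.aeval y P = 0 := by
  classical
  set z : σ → ℂ := fun s => ((ev (t : ℝ) (h s) : ℝ) : ℂ) with hzd
  set sp : Polynomial ℤ → ℚ := fun p => (p.map (Int.castRingHom ℚ)).eval (1 / (t : ℚ)) with hsp
  have ht0 : (0 : ℝ) < t := by exact_mod_cast ht
  have hsa : sp a ≠ 0 := by
    intro h1
    apply ha
    have h2 : Polynomial.aeval (1 / (t : ℝ)) a = ((sp a : ℚ) : ℝ) := by
      have e1 : ((sp a : ℚ) : ℝ) = algebraMap ℚ ℝ (Polynomial.eval (1 / (t : ℚ)) (a.map (Int.castRingHom ℚ))) := rfl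
      rw [e1, ← Polynomial.eval₂_at_apply, Polynomial.eval₂_map, Polynomial.aeval_def]
      congr 1
      simp
    rw [h2, h1, Rat.cast_zero]
  -- specialised relations
  have hrel : ∀ y : σ → ℂ, y ∈ Vz h (1 / (t : ℚ)) → ∀ b : Fin δ → Option σ,
      ((sp a : ℚ) : ℂ) * wz y b = ∑ β, ((sp (M b β) : ℚ) : ℂ) * wz y β.1 := by
    intro y hy b
    set W : (Fin δ → Option σ) → MvPolynomial σ (Polynomial ℚ) := fun b => wz MvPolynomial.X b with hW
    have hW1 : ∀ b, MvPolynomial.aeval h (W b) = wz h b := by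
      intro b
      show MvPolynomial.aeval h (∏ j, (b j).elim 1 MvPolynomial.X) = _
      rw [map_prod]
      refine Finset.prod_congr rfl fun j _ => ?_
      rcases b j with _ | s
      · exact map_one _
      · exact MvPolynomial.aeval_X _ _
    have hW2 : ∀ b, MvPolynomial.eval₂ ((algebraMap ℚ ℂ).comp (Polynomial.evalRingHom (1 / (t : ℚ)))) y (W b) = wz y b := by
      intro b
      show MvPolynomial.eval₂ _ y (∏ j, (b j).elim 1 MvPolynomial.X) = _
      rw [← MvPolynomial.coe_eval₂Hom, map_prod]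
      refine Finset.prod_congr rfl fun j _ => ?_
      rcases b j with _ | s
      · exact map_one _
      · exact MvPolynomial.eval₂Hom_X' _ _ _
    have h1 := hy (MvPolynomial.C (a.map (Int.castRingHom ℚ)) * W b -
      ∑ β : B, MvPolynomial.C ((M b β).map (Int.castRingHom ℚ)) * W β.1) (by
      rw [map_sub, map_mul, map_sum, hW1, MvPolynomial.aeval_C]
      have h2 : ∀ β : B, MvPolynomial.aeval h (MvPolynomial.C ((M b β).map (Int.castRingHom ℚ)) * W β.1) =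
          ps (M b β) * wz h β.1 := by
        intro β
        rw [map_mul, hW1, MvPolynomial.aeval_C]
        rfl
      rw [Finset.sum_congr rfl fun β _ => h2 β, ← hM b]
      exact sub_self _)
    rw [← MvPolynomial.coe_eval₂Hom, map_sub, map_mul, map_sum] at h1
    have h3 : ∀ β : B, (MvPolynomial.eval₂Hom ((algebraMap ℚ ℂ).comp (Polynomial.evalRingHom (1 / (t : ℚ)))) y)
        (MvPolynomial.C ((M b β).map (Int.castRingHom ℚ)) * W β.1) = ((sp (M b β) : ℚ) : ℂ) * wz y β.1 := by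
      intro β
      rw [map_mul, MvPolynomial.coe_eval₂Hom, hW2, MvPolynomial.eval₂_C]
      rfl
    rw [Finset.sum_congr rfl fun β _ => h3 β, MvPolynomial.coe_eval₂Hom, hW2, MvPolynomial.eval₂_C, sub_eq_zero] at h1
    exact h1
  -- the words of the monomials
  have hword : ∀ m ∈ P.support, ∃ b : Fin δ → Option σ, ∀ (K : Type) [CommMonoid K] (z : σ → K), wz z b = ∏ s, z s ^ m s := by
    intro m hm
    refine exists_word ?_
    have h1 := (MvPolynomial.le_totalDegree hm).trans hP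
    rwa [Finsupp.sum_fintype _ _ (fun _ => rfl)] at h1
  choose! w hw using hword
  have key : ∀ y : σ → ℂ, y ∈ Vz h (1 / (t : ℚ)) → ((sp a : ℚ) : ℂ) * MvPolynomial.aeval y P =
      ∑ β : B, ((∑ m ∈ P.support, P.coeff m * sp (M (w m) β) : ℚ) : ℂ) * wz y β.1 := by
    intro y hy
    rw [MvPolynomial.aeval_def, MvPolynomial.eval₂_eq', Finset.mul_sum]
    have h1 : ∀ m ∈ P.support, ((sp a : ℚ) : ℂ) * (algebraMap ℚ ℂ (P.coeff m) * ∏ i, y i ^ m i) =
        ∑ β : B, ((P.coeff m * sp (M (w m) β) : ℚ) : ℂ) * wz y β.1 := by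
      intro m hm
      rw [← hw m hm ℂ y, mul_left_comm, hrel y hy, Finset.mul_sum]
      refine Finset.sum_congr rfl fun β _ => ?_
      rw [eq_ratCast]
      push_cast
      ring
    rw [Finset.sum_congr rfl h1, Finset.sum_comm]
    refine Finset.sum_congr rfl fun β _ => ?_
    push_cast
    rw [Finset.sum_mul]
  have h1 := key z hz
  rw [h0, mul_zero] at h1
  have h2 : ∑ β : B, (∑ m ∈ P.support, P.coeff m * sp (M (w m) β)) • ev (t : ℝ) (wz h β.1) = 0 := by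
    have h3 : (((∑ β : B, (∑ m ∈ P.support, P.coeff m * sp (M (w m) β)) • ev (t : ℝ) (wz h β.1) : ℝ)) : ℂ) = 0 := by
      rw [h1]
      rw [Complex.ofReal_sum]
      refine Finset.sum_congr rfl fun β _ => ?_
      rw [Rat.smul_def, Complex.ofReal_mul, wz_cv ht0 hc, Complex.ofReal_ratCast]
    exact_mod_cast h3
  have h3 := Fintype.linearIndependent_iff.1 hLI _ h2
  have h4 := key y hy
  have h5 : ∀ β : B, ((∑ m ∈ P.support, P.coeff m * sp (M (w m) β) : ℚ) : ℂ) * wz y β.1 = 0 := by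
    intro β
    rw [h3 β, Rat.cast_zero, zero_mul]
  rw [Finset.sum_eq_zero fun β _ => h5 β] at h4
  refine (mul_eq_zero.1 h4).resolve_left ?_
  exact_mod_cast hsa

end words

/-! ### exponential curves -/

section curves
variable {n N : ℕ}

/-- the vector field `(x_j) ↦ (X_j x_j)` -/
noncomputable def DJ {R : Type} [CommRing R] (X : Fin N → Matrix (Fin n) (Fin n) R)
    (P : MvPolynomial (Fin N × Fin n × Fin n) R) : MvPolynomial (Fin N × Fin n × Fin n) R :=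
  ∑ b, MvPolynomial.pderiv b P * ∑ l, MvPolynomial.C (X b.1 b.2.1 l) * MvPolynomial.X (b.1, l, b.2.2)

theorem map_DJ {R R' : Type} [CommRing R] [CommRing R'] (φ : R →+* R') (X : Fin N → Matrix (Fin n) (Fin n) R)
    (P : MvPolynomial (Fin N × Fin n × Fin n) R) :
    MvPolynomial.map φ (DJ X P) = DJ (fun j => (X j).map φ) (MvPolynomial.map φ P) := by
  unfold DJ
  rw [map_sum]
  refine Finset.sum_congr rfl fun b _ => ?_
  rw [map_mul, map_sum, MvPolynomial.pderiv_map]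
  congr 1
  refine Finset.sum_congr rfl fun l _ => ?_
  rw [map_mul, MvPolynomial.map_C, MvPolynomial.map_X]
  rfl

theorem eval_DJ {R : Type} [CommRing R] (X : Fin N → Matrix (Fin n) (Fin n) R)
    (P : MvPolynomial (Fin N × Fin n × Fin n) R) (z : Fin N → Matrix (Fin n) (Fin n) R) :
    MvPolynomial.eval (fun b => z b.1 b.2.1 b.2.2) (DJ X P) =
      ∑ b, MvPolynomial.eval (fun b => z b.1 b.2.1 b.2.2) (MvPolynomial.pderiv b P) * (X b.1 * z b.1) b.2.1 b.2.2 := by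
  unfold DJ
  rw [map_sum]
  refine Finset.sum_congr rfl fun b _ => ?_
  rw [map_mul, map_sum, Matrix.mul_apply]
  congr 1
  refine Finset.sum_congr rfl fun l _ => ?_
  rw [map_mul, MvPolynomial.eval_C, MvPolynomial.eval_X]

/-- the curve `(exp (s X_j) z_j)` -/
noncomputable def cur (X z : Fin N → Matrix (Fin n) (Fin n) ℂ) (s : ℂ) (b : Fin N × Fin n × Fin n) : ℂ :=
  (NormedSpace.exp (s • X b.1) * z b.1) b.2.1 b.2.2

theorem cur_zero (X z : Fin N → Matrix (Fin n) (Fin n) ℂ) : cur X z 0 = fun b => z b.1 b.2.1 b.2.2 := by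
  funext b
  unfold cur
  have h2 : (0 : ℂ) • X b.1 = 0 := zero_smul _ _
  rw [h2, exp_zero', Matrix.one_mul]

theorem cur_HD (X z : Fin N → Matrix (Fin n) (Fin n) ℂ) (s : ℂ) (b : Fin N × Fin n × Fin n) :
    HasDerivAt (fun u : ℂ => cur X z u b) ((X b.1 * (NormedSpace.exp (s • X b.1) * z b.1)) b.2.1 b.2.2) s :=
  curve_HD (X b.1) (z b.1) s b.2

theorem eval_DJ_cur (X z : Fin N → Matrix (Fin n) (Fin n) ℂ) (s : ℂ) (P : MvPolynomial (Fin N × Fin n × Fin n) ℂ) :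
    MvPolynomial.eval (cur X z s) (DJ X P) = ∑ b, MvPolynomial.eval (cur X z s) (MvPolynomial.pderiv b P) *
      (X b.1 * (NormedSpace.exp (s • X b.1) * z b.1)) b.2.1 b.2.2 := by
  have h3 : cur X z s = fun b => (fun j => NormedSpace.exp (s • X j) * z j) b.1 b.2.1 b.2.2 := rfl
  rw [h3]
  exact eval_DJ X P fun j => NormedSpace.exp (s • X j) * z j

theorem polyJ_HD (X z : Fin N → Matrix (Fin n) (Fin n) ℂ) (P : MvPolynomial (Fin N × Fin n × Fin n) ℂ) (s : ℂ) :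
    HasDerivAt (fun u : ℂ => MvPolynomial.eval (cur X z u) P) (MvPolynomial.eval (cur X z s) (DJ X P)) s := by
  rw [eval_DJ_cur]
  exact eval_HD P (y := cur X z) fun b => cur_HD X z s b

theorem curve_zeroJ {X z : Fin N → Matrix (Fin n) (Fin n) ℂ} (S : MvPolynomial (Fin N × Fin n × Fin n) ℂ → Prop)
    (hS : ∀ P, S P → S (DJ X P)) (h0 : ∀ P, S P → MvPolynomial.eval (fun b => z b.1 b.2.1 b.2.2) P = 0)
    {P : MvPolynomial (Fin N × Fin n × Fin n) ℂ} (hP : S P) (s : ℂ) : MvPolynomial.eval (cur X z s) P = 0 := by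
  refine entire_zero S (fun P s => MvPolynomial.eval (cur X z s) P) (DJ X) hS (fun P hP => ?_)
    (fun P _ s => polyJ_HD X z P s) P hP s
  show MvPolynomial.eval (cur X z 0) P = 0
  rw [cur_zero]
  exact h0 P hP

/-- the entries -/
def zj (Z : Fin N → Matrix (Fin n) (Fin n) ℚ⟦X⟧) (a : Fin N × Fin n × Fin n) : ℚ⟦X⟧ := Z a.1 a.2.1 a.2.2

/-- the entries as complex power series -/
noncomputable def zjc (Z : Fin N → Matrix (Fin n) (Fin n) ℚ⟦X⟧) (a : Fin N × Fin n × Fin n) : ℂ⟦X⟧ :=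
  PowerSeries.map (algebraMap ℚ ℂ) (zj Z a)

/-- `(X_j)` is an infinitesimal symmetry of the relations over `ℂ(x)` between the entries of the `Z_j` -/
def InfJ (Z : Fin N → Matrix (Fin n) (Fin n) ℚ⟦X⟧) (X : Fin N → Matrix (Fin n) (Fin n) ℂ) : Prop :=
  ∀ R : MvPolynomial (Fin N × Fin n × Fin n) (Polynomial ℂ), MvPolynomial.aeval (zjc Z) R = 0 →
    MvPolynomial.aeval (zjc Z) (DJ (fun j => (X j).map Polynomial.C) R) = 0

/-- the values -/
noncomputable def vj (Z : Fin N → Matrix (Fin n) (Fin n) ℚ⟦X⟧) (t : ℕ) (j : Fin N) : Matrix (Fin n) (Fin n) ℂ :=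
  Matrix.of fun a b => ((ev (t : ℝ) (Z j a b) : ℝ) : ℂ)

theorem vj_ec (Z : Fin N → Matrix (Fin n) (Fin n) ℚ⟦X⟧) (t : ℕ) :
    (fun b : Fin N × Fin n × Fin n => vj Z t b.1 b.2.1 b.2.2) = fun i => ec (1 / (t : ℝ)) (zjc Z i) := by
  funext b
  exact (ec_map _ _).symm

theorem inf_curveJ {Z : Fin N → Matrix (Fin n) (Fin n) ℚ⟦X⟧} {X : Fin N → Matrix (Fin n) (Fin n) ℂ} (hX : InfJ Z X) {t : ℕ}
    (ht : 0 < t) (hc : ∀ a, Cv (t : ℝ) (zj Z a)) {R : MvPolynomial (Fin N × Fin n × Fin n) (Polynomial ℂ)}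
    (hR : MvPolynomial.aeval (zjc Z) R = 0) (s : ℂ) :
    MvPolynomial.eval (cur X (vj Z t) s) (MvPolynomial.map (Polynomial.evalRingHom (((1 / (t : ℝ) : ℝ)) : ℂ)) R) = 0 := by
  have ht0 : (0 : ℝ) < t := by exact_mod_cast ht
  refine curve_zeroJ (X := X) (z := vj Z t)
    (fun P => ∃ R : MvPolynomial (Fin N × Fin n × Fin n) (Polynomial ℂ),
    MvPolynomial.aeval (zjc Z) R = 0 ∧ P = MvPolynomial.map (Polynomial.evalRingHom (((1 / (t : ℝ) : ℝ)) : ℂ)) R) ?_ ?_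
    ⟨R, hR, rfl⟩ s
  · rintro _ ⟨R, hR, rfl⟩
    refine ⟨_, hX R hR, ?_⟩
    rw [map_DJ]
    congr 1
    funext j
    ext i l
    simp
  · rintro _ ⟨R, hR, rfl⟩
    have h1 := (ec_rel (q := 1 / (t : ℝ)) (fun a : Fin N × Fin n × Fin n => Cc_map ht0 (hc a)) R).2
    have h3 : ec (1 / (t : ℝ)) 0 = 0 := by
      unfold ec
      simp
    rw [vj_ec]
    refine h1.symm.trans ?_
    have h2 : MvPolynomial.aeval (fun a : Fin N × Fin n × Fin n => PowerSeries.map (algebraMap ℚ ℂ) (zj Z a)) R = 0 := hR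
    rw [h2]
    exact h3

theorem aeval_cx {Z : Fin N → Matrix (Fin n) (Fin n) ℚ⟦X⟧} (R : MvPolynomial (Fin N × Fin n × Fin n) (Polynomial ℚ)) :
    MvPolynomial.aeval (zjc Z) (MvPolynomial.map (Polynomial.mapRingHom (algebraMap ℚ ℂ)) R) =
      PowerSeries.map (algebraMap ℚ ℂ) (MvPolynomial.aeval (zj Z) R) := by
  induction R using MvPolynomial.induction_on with
  | C p =>
    rw [MvPolynomial.map_C, MvPolynomial.aeval_C, MvPolynomial.aeval_C]
    show ((Polynomial.mapRingHom (algebraMap ℚ ℂ) p : Polynomial ℂ) : ℂ⟦X⟧) = PowerSeries.map (algebraMap ℚ ℂ) (p : ℚ⟦X⟧)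
    ext m
    simp
  | add p q hp hq => rw [map_add, map_add, hp, hq, map_add, map_add]
  | mul_X p i hp =>
    rw [map_mul, map_mul, hp, map_mul, map_mul, MvPolynomial.map_X, MvPolynomial.aeval_X, MvPolynomial.aeval_X]
    rfl

theorem vz_memJ {Z : Fin N → Matrix (Fin n) (Fin n) ℚ⟦X⟧} {X : Fin N → Matrix (Fin n) (Fin n) ℂ} (hX : InfJ Z X) {t : ℕ}
    (ht : 0 < t) (hc : ∀ a, Cv (t : ℝ) (zj Z a)) (s : ℂ) : cur X (vj Z t) s ∈ Vz (zj Z) (1 / (t : ℚ)) := by
  intro R hR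
  have h1 : MvPolynomial.aeval (zjc Z) (MvPolynomial.map (Polynomial.mapRingHom (algebraMap ℚ ℂ)) R) = 0 := by
    rw [aeval_cx, hR, map_zero]
  have h2 := inf_curveJ hX ht hc h1 s
  rw [MvPolynomial.map_map, MvPolynomial.eval_map] at h2
  have h3 : (Polynomial.evalRingHom (((1 / (t : ℝ) : ℝ)) : ℂ)).comp (Polynomial.mapRingHom (algebraMap ℚ ℂ)) =
      (algebraMap ℚ ℂ).comp (Polynomial.evalRingHom (1 / (t : ℚ))) := by
    refine Polynomial.ringHom_ext (fun a => ?_) ?_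
    · simp
    · simp
  rw [h3] at h2
  exact h2

open Pool.Agent.Y118.HV (Hv) in
open Pool.Agent.Helper880_R3 (pv) in
/-- **relations between the values, with uniform constants** -/
theorem rel_uni {I : Type} {H : I → ℕ} {Z : I → Fin N → Matrix (Fin n) (Fin n) ℚ⟦X⟧} (hU : UF H fun i => zj (Z i)) (d : ℕ) :
    ∃ E : ℕ, ∀ (i : I) (t : ℕ), (H i + 2) ^ E ≤ t → 0 < t ∧
      ∀ X : Fin N → Matrix (Fin n) (Fin n) ℂ, InfJ (Z i) X →
        ∀ P : MvPolynomial (Fin N × Option (Fin n × Fin n)) ℚ, P.totalDegree ≤ d →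
        MvPolynomial.aeval (pv (fun j => Hv (Z i j) t) fun _ => 0) P = 0 →
        ∀ s : ℂ, MvPolynomial.aeval (pv (fun j => NormedSpace.exp (s • X j) * Hv (Z i j) t) fun _ => 0) P = 0 := by
  classical
  obtain ⟨E, hE⟩ := li_uni hU d
  refine ⟨E, fun i t ht => ?_⟩
  obtain ⟨ht0, hc, B, a, M, ha, hM, hLI⟩ := hE i t ht
  refine ⟨ht0, fun X hX P hP hP0 s => ?_⟩
  set g : Fin N × Option (Fin n × Fin n) → MvPolynomial (Fin N × Fin n × Fin n) ℚ :=
    fun a => a.2.elim 0 fun q => MvPolynomial.X (a.1, q.1, q.2) with hg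
  set P' : MvPolynomial (Fin N × Fin n × Fin n) ℚ := MvPolynomial.aeval g P with hP'
  have hev : ∀ z : Fin N → Matrix (Fin n) (Fin n) ℂ, MvPolynomial.aeval
      (fun b : Fin N × Fin n × Fin n => z b.1 b.2.1 b.2.2) P' = MvPolynomial.aeval (pv z fun _ => 0) P := by
    intro z
    have h1 : (MvPolynomial.aeval (fun b : Fin N × Fin n × Fin n => z b.1 b.2.1 b.2.2) :
        MvPolynomial (Fin N × Fin n × Fin n) ℚ →ₐ[ℚ] ℂ).comp (MvPolynomial.aeval g) =
        MvPolynomial.aeval (pv z fun _ => 0) := by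
      refine MvPolynomial.algHom_ext fun a => ?_
      obtain ⟨j, _ | q⟩ := a
      · simp [hg, pv]
      · simp [hg, pv]
    exact DFunLike.congr_fun h1 P
  have hdeg : P'.totalDegree ≤ d := by
    refine Pool.Agent.Y118.UL.aeval_deg hP fun a => ?_
    obtain ⟨j, _ | q⟩ := a
    · show (0 : MvPolynomial (Fin N × Fin n × Fin n) ℚ).totalDegree ≤ 1
      simp
    · show (MvPolynomial.X (j, q.1, q.2) : MvPolynomial (Fin N × Fin n × Fin n) ℚ).totalDegree ≤ 1
      rw [MvPolynomial.totalDegree_X]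
  have hz := vz_memJ hX ht0 hc 0
  rw [cur_zero] at hz
  have h1 := lift ht0 hc ha hM hLI (vz_memJ hX ht0 hc s) hz hdeg (by
    have h2 := hev fun j => Hv (Z i j) t
    rw [hP0] at h2
    exact h2)
  have h2 := hev fun j => NormedSpace.exp (s • X j) * Hv (Z i j) t
  rw [← h2]
  exact h1

end curves

end Pool.Agent.Helper880_UN
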