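import Pool.Agent.Helper880_UN.Lift
import Pool.Agent.Y113.GG.Basis

/-!
# Scaled families
-/

set_option autoImplicit false
set_option linter.unusedSectionVars false
set_option linter.unusedVariables false
set_option maxHeartbeats 400000

open PowerSeries

namespace Pool.Agent.Helper880_UN

open Pool.Agent.Y113
open Pool.Agent.Y120.GH
open Pool.Agent.Y120.GF
open Pool.Agent.Y113.GG (exists_basis common_IP)

/-- the polynomial `P(g x)` -/
noncomputable def sc (g : ℤ) (P : Polynomial ℤ) : Polynomial ℤ := P.comp (Polynomial.C g * Polynomial.X)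

theorem sc_coeff (g : ℤ) (P : Polynomial ℤ) (l : ℕ) : (sc g P).coeff l = P.coeff l * g ^ l :=
  Polynomial.comp_C_mul_X_coeff

theorem sc_deg (g : ℤ) (P : Polynomial ℤ) : (sc g P).natDegree ≤ P.natDegree := by
  rw [Polynomial.natDegree_le_iff_coeff_eq_zero]
  intro l hl
  rw [sc_coeff, Polynomial.coeff_eq_zero_of_natDegree_lt hl, zero_mul]

theorem sc_ne {g : ℤ} (hg : g ≠ 0) {P : Polynomial ℤ} (hP : P ≠ 0) : sc g P ≠ 0 := by
  intro h
  apply hP
  ext l
  have h1 := sc_coeff g P l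
  rw [h, Polynomial.coeff_zero] at h1
  rw [Polynomial.coeff_zero]
  exact (mul_eq_zero.1 h1.symm).resolve_right (pow_ne_zero _ hg)

theorem ps_sc (g : ℤ) (P : Polynomial ℤ) : ps (sc g P) = rescale (g : ℚ) (ps P) := by
  ext m
  rw [coeff_rescale]
  unfold ps
  rw [Polynomial.coeff_coe, Polynomial.coeff_coe, Polynomial.coeff_map, Polynomial.coeff_map, sc_coeff, eq_intCast, eq_intCast]
  push_cast
  ring

theorem hd_sc (g : ℤ) (s : ℕ) (y : ℚ⟦X⟧) :
    hd s (rescale (g : ℚ) y) = PowerSeries.C ((g : ℚ) ^ s) * rescale (g : ℚ) (hd s y) := by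
  ext m
  rw [coeff_C_mul, coeff_rescale]
  unfold hd
  rw [coeff_mk, coeff_mk, coeff_rescale, pow_add]
  ring

theorem bd_sc {q s : ℕ} {C : ℝ} {g : ℤ} (hg : 1 ≤ |(g : ℝ)|) {P : Polynomial ℤ} (h1 : P.natDegree ≤ q * s)
    (h2 : ∀ l, |((P.coeff l : ℤ) : ℝ)| ≤ C) (l : ℕ) : |(((sc g P).coeff l : ℤ) : ℝ)| ≤ C * |(g : ℝ)| ^ (q * s) := by
  have hC : 0 ≤ C := (abs_nonneg _).trans (h2 0)
  by_cases hl : l ≤ q * s
  · rw [sc_coeff]
    push_cast
    rw [abs_mul, abs_pow]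
    exact mul_le_mul (h2 l) (pow_le_pow_right₀ hg hl) (by positivity) hC
  · rw [sc_coeff, Polynomial.coeff_eq_zero_of_natDegree_lt (by omega), zero_mul, Int.cast_zero, abs_zero]
    positivity

theorem gsys_sc {σ : Type} [Fintype σ] {q : ℕ} {C : ℝ} {T : Polynomial ℤ} {y : σ → ℚ⟦X⟧} (h : GSys q C T y) {g : ℤ} (hg : g ≠ 0) :
    GSys q (C * |(g : ℝ)| ^ (q + 1)) (sc g T) (fun i => rescale (g : ℚ) (y i)) := by
  have hC := h.one_le
  have hC0 : 0 < C := by linarith
  have hg1 : 1 ≤ |(g : ℝ)| := by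
    have h1 : (1 : ℤ) ≤ |g| := Int.one_le_abs hg
    exact_mod_cast h1
  have hg0 : 0 < |(g : ℝ)| := by linarith
  have hle : ∀ m : ℕ, C ^ (m + 1) ≤ (C * |(g : ℝ)| ^ (q + 1)) ^ (m + 1) := fun m =>
    pow_le_pow_left₀ hC0.le (le_mul_of_one_le_right hC0.le (one_le_pow₀ hg1)) _
  refine ⟨one_le_mul_of_one_le_of_one_le hC (one_le_pow₀ hg1), (sc_deg g T).trans h.degT, fun l => ?_, fun i m => ?_,
    fun m => ?_, fun k => ?_⟩
  · have h1 := bd_sc (q := q) (s := 1) hg1 (P := T) (by rw [mul_one]; exact h.degT) h.sizeT l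
    refine h1.trans (mul_le_mul_of_nonneg_left ?_ hC0.le)
    rw [mul_one]
    exact pow_le_pow_right₀ hg1 (Nat.le_succ q)
  · rw [coeff_rescale]
    push_cast
    rw [abs_mul, abs_pow, mul_pow, mul_comm (C ^ (m + 1))]
    refine mul_le_mul ?_ (h.size i m) (abs_nonneg _) (by positivity)
    rw [← pow_mul]
    exact pow_le_pow_right₀ hg1 (by nlinarith)
  · obtain ⟨d, hd0, hd1, hd2⟩ := h.den m
    refine ⟨d, hd0, hd1.trans (hle m), fun i j hj => ?_⟩
    obtain ⟨a, ha⟩ := hd2 i j hj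
    refine ⟨g ^ j * a, ?_⟩
    rw [coeff_rescale]
    push_cast
    rw [← ha]
    ring
  · obtain ⟨d, hd0, hd1, hd2⟩ := h.der k
    refine ⟨d, hd0, hd1.trans (hle k), fun s hs => ?_⟩
    obtain ⟨G, g1, g2, g3⟩ := hd2 s hs
    refine ⟨fun i j => Polynomial.C (g ^ s) * sc g (G i j), fun i j => ?_, fun i j l => ?_, fun i => ?_⟩
    · exact (Polynomial.natDegree_C_mul_le _ _).trans ((sc_deg g _).trans (g1 i j))
    · rw [Polynomial.coeff_C_mul]
      push_cast
      rw [abs_mul, abs_pow]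
      have h1 := bd_sc hg1 (g1 i j) (g2 i j) l
      calc |(g : ℝ)| ^ s * |(((sc g (G i j)).coeff l : ℤ) : ℝ)| ≤ |(g : ℝ)| ^ s * (C ^ (k + 1) * |(g : ℝ)| ^ (q * s)) :=
            mul_le_mul_of_nonneg_left h1 (by positivity)
        _ = C ^ (k + 1) * |(g : ℝ)| ^ ((q + 1) * s) := by
            rw [add_mul, one_mul, pow_add]
            ring
        _ ≤ C ^ (k + 1) * |(g : ℝ)| ^ ((q + 1) * (k + 1)) :=
            mul_le_mul_of_nonneg_left (pow_le_pow_right₀ hg1 (Nat.mul_le_mul_left _ (by omega))) (by positivity)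
        _ = (C * |(g : ℝ)| ^ (q + 1)) ^ (k + 1) := by rw [mul_pow, ← pow_mul]
    · have h1 := congrArg (rescale (g : ℚ)) (g3 i)
      rw [map_mul, map_mul, map_pow, map_sum, map_natCast, ← ps_sc] at h1
      rw [hd_sc]
      calc (d : ℚ⟦X⟧) * (ps (sc g T) ^ s * (PowerSeries.C ((g : ℚ) ^ s) * rescale (g : ℚ) (hd s (y i)))) =
            PowerSeries.C ((g : ℚ) ^ s) * ((d : ℚ⟦X⟧) * (ps (sc g T) ^ s * rescale (g : ℚ) (hd s (y i)))) := by ring
        _ = ∑ j, ps (Polynomial.C (g ^ s) * sc g (G i j)) * rescale (g : ℚ) (y j) := by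
            rw [h1, Finset.mul_sum]
            refine Finset.sum_congr rfl fun j _ => ?_
            rw [map_mul, ← ps_sc, ps_mul, ps_C, ← mul_assoc]
            congr 2
            rw [map_pow]
            push_cast
            rw [map_intCast]

variable {σ : Type} [Fintype σ]

theorem wz_sc (g : ℤ) (h : σ → ℚ⟦X⟧) {δ : ℕ} (b : Fin δ → Option σ) :
    wz (fun s => rescale (g : ℚ) (h s)) b = rescale (g : ℚ) (wz h b) := by
  unfold wz
  rw [map_prod]
  refine Finset.prod_congr rfl fun j _ => ?_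
  rcases b j with _ | s
  · exact (map_one _).symm
  · rfl

/-- the basis of the words -/
theorem exists_wz [DecidableEq σ] (h : σ → ℚ⟦X⟧) (δ : ℕ) :
    ∃ s : Finset (Fin δ → Option σ), (fun _ => none) ∈ s ∧
      LinearIndependent (Polynomial ℚ) (fun k : s => wz h k.1) ∧
      ∃ (D : Polynomial ℤ) (N : (Fin δ → Option σ) → s → Polynomial ℤ), D ≠ 0 ∧
        ∀ b, ps D * wz h b = ∑ k : s, ps (N b k) * wz h k.1 := by
  classical
  obtain ⟨s, h1, h2, D, N, hD, hN⟩ := exists_basis (R := Polynomial ℚ) (wz h) (fun _ : Fin δ => (none : Option σ))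
    (by
      intro a ha
      have h3 : wz h (fun _ : Fin δ => (none : Option σ)) = 1 := Finset.prod_eq_one fun j _ => rfl
      rw [h3] at ha
      have h4 : (a : ℚ⟦X⟧) = 0 := by
        have h5 : a • (1 : ℚ⟦X⟧) = (a : ℚ⟦X⟧) * 1 := rfl
        rw [h5, mul_one] at ha
        exact ha
      exact Polynomial.coe_eq_zero_iff.1 h4)
  refine ⟨s, h1, h2, ?_⟩
  obtain ⟨N0, Q, hN0, hQ⟩ := common_IP (fun x : Option ((Fin δ → Option σ) × s) => x.elim D fun p => N p.1 p.2)
  have hps : ∀ x, ps (Q x) = PowerSeries.C (N0 : ℚ) * ((x.elim D fun p => N p.1 p.2 : Polynomial ℚ) : ℚ⟦X⟧) := by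
    intro x
    unfold ps
    rw [hQ, Polynomial.coe_mul, Polynomial.coe_C]
  refine ⟨Q none, fun h k => Q (some (h, k)), ?_, fun b => ?_⟩
  · intro h3
    have h4 := hQ none
    rw [h3, Polynomial.map_zero] at h4
    rcases mul_eq_zero.1 h4.symm with h5 | h5
    · rw [Polynomial.C_eq_zero] at h5
      have : N0 ≠ 0 := by omega
      exact this (by exact_mod_cast h5)
    · exact hD h5
  · rw [hps none]
    have h6 : (D : ℚ⟦X⟧) * wz h b = ∑ k : s, (N b k : ℚ⟦X⟧) * wz h k.1 := hN b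
    rw [mul_assoc]
    simp only [Option.elim]
    rw [h6, Finset.mul_sum]
    refine Finset.sum_congr rfl fun k _ => ?_
    rw [hps (some (b, k))]
    simp only [Option.elim]
    ring

theorem li_sc {g : ℤ} (hg : g ≠ 0) {ι : Type} {w : ι → ℚ⟦X⟧} (h : LinearIndependent (Polynomial ℚ) w) :
    LinearIndependent (Polynomial ℚ) (fun i => rescale (g : ℚ) (w i)) := by
  have hg' : (g : ℚ) ≠ 0 := by exact_mod_cast hg
  refine h.map_of_injective_injective (fun P : Polynomial ℚ => P.comp (Polynomial.C ((g : ℚ)⁻¹) * Polynomial.X))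
    (rescale (g : ℚ) : ℚ⟦X⟧ →+* ℚ⟦X⟧).toAddMonoidHom (fun P hP => ?_) (fun f hf => ?_) fun P f => ?_
  · ext l
    have h1 := congrArg (fun Q : Polynomial ℚ => Q.coeff l) hP
    simp only [Polynomial.coeff_zero] at h1
    rw [Polynomial.comp_C_mul_X_coeff] at h1
    rw [Polynomial.coeff_zero]
    exact (mul_eq_zero.1 h1).resolve_right (pow_ne_zero _ (inv_ne_zero hg'))
  · ext m
    have h1 := congrArg (coeff m) (show rescale (g : ℚ) f = 0 from hf)
    rw [coeff_rescale, map_zero] at h1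
    rw [map_zero]
    exact (mul_eq_zero.1 h1).resolve_left (pow_ne_zero _ hg')
  · show rescale (g : ℚ) (((P.comp (Polynomial.C ((g : ℚ)⁻¹) * Polynomial.X) : Polynomial ℚ) : ℚ⟦X⟧) * f) =
      (P : ℚ⟦X⟧) * rescale (g : ℚ) f
    rw [map_mul]
    congr 1
    ext m
    rw [coeff_rescale, Polynomial.coeff_coe, Polynomial.coeff_coe, Polynomial.comp_C_mul_X_coeff, mul_left_comm, ← mul_pow,
      mul_inv_cancel₀ hg', one_pow, mul_one]

/-- finitely many polynomials are small -/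
theorem exists_small {ι : Type} [Fintype ι] (P : ι → Polynomial ℤ) : ∃ E : ℕ, ∀ i, (P i).natDegree ≤ E ∧
    ∀ l, |(((P i).coeff l : ℤ) : ℝ)| ≤ 2 ^ E := by
  classical
  have h1 : ∀ i, ∃ E : ℕ, (P i).natDegree ≤ E ∧ ∀ l, |(((P i).coeff l : ℤ) : ℝ)| ≤ 2 ^ E := by
    intro i
    obtain ⟨m, hm⟩ : ∃ m : ℕ, ∀ l ∈ Finset.range ((P i).natDegree + 1), ((P i).coeff l).natAbs ≤ m :=
      ⟨∑ l ∈ Finset.range ((P i).natDegree + 1), ((P i).coeff l).natAbs, fun l hl =>
        Finset.single_le_sum (f := fun l => ((P i).coeff l).natAbs) (fun _ _ => Nat.zero_le _) hl⟩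
    refine ⟨(P i).natDegree + m, Nat.le_add_right _ _, fun l => ?_⟩
    by_cases hl : l ≤ (P i).natDegree
    · have h2 := hm l (Finset.mem_range.2 (by omega))
      have h3 : |(((P i).coeff l : ℤ) : ℝ)| = (((P i).coeff l).natAbs : ℝ) := by
        rw [← Int.cast_abs, Int.abs_eq_natAbs]
        rfl
      rw [h3]
      have h4 : (((P i).coeff l).natAbs : ℝ) ≤ m := by exact_mod_cast h2
      have h5 : (m : ℝ) ≤ 2 ^ m := by exact_mod_cast Nat.lt_two_pow_self.le
      exact (h4.trans h5).trans (pow_le_pow_right₀ (by norm_num) (Nat.le_add_left _ _))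
    · rw [Polynomial.coeff_eq_zero_of_natDegree_lt (by omega), Int.cast_zero, abs_zero]
      positivity
  choose E hE using h1
  refine ⟨∑ i, E i, fun i => ?_⟩
  have h2 : E i ≤ ∑ i, E i := Finset.single_le_sum (fun _ _ => Nat.zero_le _) (Finset.mem_univ i)
  exact ⟨(hE i).1.trans h2, fun l => ((hE i).2 l).trans (pow_le_pow_right₀ (by norm_num) h2)⟩

/-- **the scaled families are uniform** -/
theorem uf_sc {q : ℕ} {C : ℝ} {T : Polynomial ℤ} {h : σ → ℚ⟦X⟧} (hT : T ≠ 0) (hG : GSys q C T h) :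
    UF (fun g : {g : ℤ // g ≠ 0} => g.1.natAbs) fun g s => rescale (g.1 : ℚ) (h s) := by
  classical
  have habs : ∀ g : ℤ, |(g : ℝ)| = (g.natAbs : ℝ) := by
    intro g
    rw [← Int.cast_abs, Int.abs_eq_natAbs]
    rfl
  refine ⟨?_, fun δ => ?_⟩
  · obtain ⟨E0, hE0⟩ := exists_nat_ge C
    refine ⟨q, E0 + (q + 1), fun g => ⟨sc g.1 T, sc_ne g.2 hT, (gsys_sc hG g.2).mono le_rfl ?_⟩⟩
    have h1 := hE0.trans (nat_le g.1.natAbs E0)
    have h2 : |((g.1 : ℤ) : ℝ)| ≤ ((g.1.natAbs : ℕ) : ℝ) + 2 := by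
      rw [habs]
      linarith
    have h3 : C * |((g.1 : ℤ) : ℝ)| ^ (q + 1) ≤ (((g.1.natAbs : ℕ) : ℝ) + 2) ^ E0 * (((g.1.natAbs : ℕ) : ℝ) + 2) ^ (q + 1) :=
      mul_le_mul h1 (pow_le_pow_left₀ (abs_nonneg _) h2 _) (by positivity) (by positivity)
    exact h3.trans (le_of_eq (pow_add _ _ _).symm)
  · obtain ⟨B, hB, hLI, a, M, ha, hM⟩ := exists_wz h δ
    obtain ⟨E1, hE1⟩ := exists_small (fun x : Option ((Fin δ → Option σ) × B) => x.elim a fun p => M p.1 p.2)
    have key : ∀ (x : Option ((Fin δ → Option σ) × B)) (g : {g : ℤ // g ≠ 0}),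
        Bd (E1 + E1) ((((g.1.natAbs : ℕ) : ℝ) + 2) ^ (E1 + E1)) (sc g.1 (x.elim a fun p => M p.1 p.2)) := by
      intro x g
      refine ⟨(sc_deg _ _).trans ((hE1 x).1.trans (Nat.le_add_right _ _)), fun l => ?_⟩
      have hg1 : 1 ≤ |((g.1 : ℤ) : ℝ)| := by
        have h1 : (1 : ℤ) ≤ |g.1| := Int.one_le_abs g.2
        exact_mod_cast h1
      have h1 := bd_sc (q := E1) (s := 1) hg1 (P := x.elim a fun p => M p.1 p.2) (by rw [mul_one]; exact (hE1 x).1)
        (hE1 x).2 l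
      refine h1.trans ?_
      rw [mul_one, habs, pow_add]
      refine mul_le_mul (pow_le_pow_left₀ (by norm_num) (hb2 _) _) (pow_le_pow_left₀ (by positivity) (by linarith) _)
        (by positivity) (by positivity)
    refine ⟨E1 + E1, fun g => ⟨B, sc g.1 a, fun b β => sc g.1 (M b β), hB, ?_, sc_ne g.2 ha, key none g,
      fun b β => key (some (b, β)) g, fun b => ?_⟩⟩
    · have h1 := li_sc g.2 hLI
      have h2 : (fun b : B => wz (fun s => rescale (g.1 : ℚ) (h s)) b.1) = fun i : B => rescale (g.1 : ℚ) (wz h i.1) :=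
        funext fun b => wz_sc _ _ _
      show LinearIndependent (Polynomial ℚ) (fun b : B => wz (fun s => rescale (g.1 : ℚ) (h s)) b.1)
      rw [h2]
      exact h1
    · show ps (sc g.1 a) * wz (fun s => rescale (g.1 : ℚ) (h s)) b =
        ∑ β : B, ps (sc g.1 (M b β)) * wz (fun s => rescale (g.1 : ℚ) (h s)) β.1
      rw [wz_sc, ps_sc, ← map_mul, hM b, map_sum]
      refine Finset.sum_congr rfl fun β _ => ?_
      rw [map_mul, wz_sc, ps_sc]

end Pool.Agent.Helper880_UN
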