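import Pool.Agent.Helper880_UN.Scl
import Pool.Agent.Helper880_R3.Rel

/-!
# Symmetries of scaled families
-/

set_option autoImplicit false
set_option linter.unusedSectionVars false
set_option linter.unusedVariables false
set_option maxHeartbeats 400000

open PowerSeries Matrix

namespace Pool.Agent.Helper880_UN

open Pool.Agent.Helper880_R3 (zc DX Inf)
open Pool.Agent.Y113 (GSys)
open Pool.Agent.Y118.HV (Hv hh)

variable {n : ℕ}

/-- the scaled matrix `Z(g x)` -/
noncomputable def scZ (g : ℤ) (Z : Matrix (Fin n) (Fin n) ℚ⟦X⟧) : Matrix (Fin n) (Fin n) ℚ⟦X⟧ :=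
  Matrix.of fun i j => rescale (g : ℚ) (Z i j)

/-- the substitution `x ↦ x / g` in relations -/
noncomputable def Phi (g : ℤ) : MvPolynomial (Fin 1 × Fin n × Fin n) (Polynomial ℂ) →+* MvPolynomial (Fin n × Fin n) (Polynomial ℂ) :=
  (MvPolynomial.map (Polynomial.compRingHom (Polynomial.C ((g : ℂ)⁻¹) * Polynomial.X))).comp
    (MvPolynomial.rename (Equiv.uniqueProd (Fin n × Fin n) (Fin 1))).toRingHom

theorem Phi_C (g : ℤ) (p : Polynomial ℂ) : Phi (n := n) g (MvPolynomial.C p) =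
    MvPolynomial.C (p.comp (Polynomial.C ((g : ℂ)⁻¹) * Polynomial.X)) := by
  show MvPolynomial.map _ (MvPolynomial.rename _ (MvPolynomial.C p)) = _
  rw [MvPolynomial.rename_C, MvPolynomial.map_C]
  rfl

theorem Phi_X (g : ℤ) (b : Fin 1 × Fin n × Fin n) : Phi g (MvPolynomial.X b) = MvPolynomial.X b.2 := by
  show MvPolynomial.map _ (MvPolynomial.rename _ (MvPolynomial.X b)) = _
  rw [MvPolynomial.rename_X, MvPolynomial.map_X]
  rfl

theorem Phi_aeval {g : ℤ} (hg : g ≠ 0) (Z : Matrix (Fin n) (Fin n) ℚ⟦X⟧)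
    (R : MvPolynomial (Fin 1 × Fin n × Fin n) (Polynomial ℂ)) :
    rescale (g : ℂ) (MvPolynomial.aeval (zc Z) (Phi g R)) = MvPolynomial.aeval (zjc fun _ : Fin 1 => scZ g Z) R := by
  have hg' : (g : ℂ) ≠ 0 := by exact_mod_cast hg
  induction R using MvPolynomial.induction_on with
  | C p =>
    rw [Phi_C, MvPolynomial.aeval_C, MvPolynomial.aeval_C]
    show rescale (g : ℂ) ((p.comp (Polynomial.C ((g : ℂ)⁻¹) * Polynomial.X) : Polynomial ℂ) : ℂ⟦X⟧) = (p : ℂ⟦X⟧)
    ext m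
    rw [coeff_rescale, Polynomial.coeff_coe, Polynomial.coeff_coe, Polynomial.comp_C_mul_X_coeff, mul_left_comm, ← mul_pow,
      mul_inv_cancel₀ hg', one_pow, mul_one]
  | add p q hp hq => rw [map_add, map_add, map_add, hp, hq, map_add]
  | mul_X p i hp =>
    rw [map_mul, map_mul, map_mul, hp, map_mul, Phi_X, MvPolynomial.aeval_X, MvPolynomial.aeval_X]
    congr 1
    ext m
    rw [coeff_rescale]
    show (g : ℂ) ^ m * coeff m (PowerSeries.map (algebraMap ℚ ℂ) (Z i.2.1 i.2.2)) =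
      coeff m (PowerSeries.map (algebraMap ℚ ℂ) (rescale (g : ℚ) (Z i.2.1 i.2.2)))
    rw [coeff_map, coeff_map, coeff_rescale, map_mul, map_pow, map_intCast]

theorem Phi_DJ (g : ℤ) (X : Matrix (Fin n) (Fin n) ℂ) (R : MvPolynomial (Fin 1 × Fin n × Fin n) (Polynomial ℂ)) :
    Phi g (DJ (fun _ : Fin 1 => X.map Polynomial.C) R) = DX (X.map Polynomial.C) (Phi g R) := by
  unfold DJ DX
  rw [map_sum, ← Equiv.sum_comp (Equiv.uniqueProd (Fin n × Fin n) (Fin 1))]
  refine Finset.sum_congr rfl fun b _ => ?_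
  rw [map_mul, map_sum]
  have h1 : Phi g (MvPolynomial.pderiv b R) = MvPolynomial.pderiv ((Equiv.uniqueProd (Fin n × Fin n) (Fin 1)) b) (Phi g R) := by
    show MvPolynomial.map _ (MvPolynomial.rename _ (MvPolynomial.pderiv b R)) =
      MvPolynomial.pderiv _ (MvPolynomial.map _ (MvPolynomial.rename _ R))
    rw [MvPolynomial.pderiv_map]
    congr 1
    exact (MvPolynomial.pderiv_rename (Equiv.injective _) b R).symm
  rw [h1]
  congr 1
  refine Finset.sum_congr rfl fun l _ => ?_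
  rw [map_mul, Phi_C, Phi_X]
  congr 2
  show ((Polynomial.C (X b.2.1 l)).comp (Polynomial.C ((g : ℂ)⁻¹) * Polynomial.X)) = Polynomial.C (X b.2.1 l)
  exact Polynomial.C_comp

theorem infJ_sc {Z : Matrix (Fin n) (Fin n) ℚ⟦X⟧} {X : Matrix (Fin n) (Fin n) ℂ} (hX : Inf Z X) {g : ℤ} (hg : g ≠ 0) :
    InfJ (fun _ : Fin 1 => scZ g Z) fun _ => X := by
  have hg' : (g : ℂ) ≠ 0 := by exact_mod_cast hg
  intro R hR
  rw [← Phi_aeval hg] at hR ⊢
  have h1 : MvPolynomial.aeval (zc Z) (Phi g R) = 0 := by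
    ext m
    have h2 := congrArg (coeff m) hR
    rw [coeff_rescale, map_zero] at h2
    rw [map_zero]
    exact (mul_eq_zero.1 h2).resolve_left (pow_ne_zero _ hg')
  rw [Phi_DJ, hX _ h1, map_zero]

/-- **the family of all scaled matrices is uniform** -/
theorem uf_scZ {Z : Matrix (Fin n) (Fin n) ℚ⟦X⟧} {q : ℕ} {C : ℝ} {T : Polynomial ℤ} (hT : T ≠ 0) (hG : GSys q C T (hh Z)) :
    UF (fun g : {g : ℤ // g ≠ 0} => g.1.natAbs) fun g => zj fun _ : Fin 1 => scZ g.1 Z := by
  have h1 : GSys q C T (fun b : Fin 1 × Fin n × Fin n => Z b.2.1 b.2.2) := by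
    have h2 := hG.reindex ((Equiv.uniqueProd (Fin n × Fin n) (Fin 1)).trans finProdFinEquiv)
    have h3 : (fun j : Fin 1 × Fin n × Fin n => hh Z (((Equiv.uniqueProd (Fin n × Fin n) (Fin 1)).trans finProdFinEquiv) j)) =
        fun b => Z b.2.1 b.2.2 := by
      funext b
      unfold hh
      rw [Equiv.trans_apply, Equiv.symm_apply_apply]
      rfl
    rwa [h3] at h2
  exact uf_sc hT h1

end Pool.Agent.Helper880_UN
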