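import Pool.Agent.Helper880_R3.Gen

/-!
# G-systems with polynomially bounded constants
-/

set_option autoImplicit false
set_option linter.unusedSectionVars false
set_option linter.unusedVariables false
set_option maxHeartbeats 400000

open PowerSeries

namespace Pool.Agent.Helper880_UN

open Pool.Agent.Y113
open Pool.Agent.Y120.GH
open Pool.Agent.Y120.GF

theorem hb1 (H : ℕ) : (1 : ℝ) ≤ (H : ℝ) + 2 := by
  have : (0 : ℝ) ≤ (H : ℝ) := by positivity
  linarith

theorem hb2 (H : ℕ) : (2 : ℝ) ≤ (H : ℝ) + 2 := by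
  have : (0 : ℝ) ≤ (H : ℝ) := by positivity
  linarith

/-- `(2 X^a)^b ≤ X^((a+1) b)` -/
theorem two_pow (H a b : ℕ) : (2 * ((H : ℝ) + 2) ^ a) ^ b ≤ ((H : ℝ) + 2) ^ ((a + 1) * b) := by
  rw [pow_mul]
  refine pow_le_pow_left₀ (by have := hb1 H; positivity) ?_ _
  rw [pow_succ, mul_comm]
  exact mul_le_mul_of_nonneg_left (hb2 H) (by have := hb1 H; positivity)

theorem nat_le (H N : ℕ) : (N : ℝ) ≤ ((H : ℝ) + 2) ^ N := by
  have h1 : (N : ℝ) ≤ 2 ^ N := by exact_mod_cast Nat.lt_two_pow_self.le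
  exact h1.trans (pow_le_pow_left₀ (by norm_num) (hb2 H) _)

variable {ι : Type} [Fintype ι]

/-- products of `δ` functions -/
theorem tens_uni (q E₀ δ : ℕ) : ∃ E : ℕ, ∀ (ι : Type) [Fintype ι] (H : ℕ) (T : Polynomial ℤ) (y : ι → ℚ⟦X⟧),
    GSys q (((H : ℝ) + 2) ^ E₀) T y → GSys q (((H : ℝ) + 2) ^ E) T (fun b : Fin δ → ι => ∏ j, y (b j)) := by
  obtain ⟨E', hE⟩ := t_prod q
  induction δ with
  | zero =>
    refine ⟨E₀, fun ι _ H T y h => ?_⟩
    have h1 := GSys.const (ι := Fin 0 → ι) h.one_le h.degT h.sizeT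
    simpa using h1
  | succ δ ih =>
    obtain ⟨E₁, hE₁⟩ := ih
    refine ⟨(max E₀ E₁ + 1) * E', fun ι _ H T y h => ?_⟩
    have h1 : GSys q (((H : ℝ) + 2) ^ max E₀ E₁) T y := h.mono le_rfl (pow_le_pow_right₀ (hb1 H) (le_max_left _ _))
    have h2 := (hE₁ ι H T y h).mono le_rfl (pow_le_pow_right₀ (hb1 H) (le_max_right E₀ E₁))
    have h3 := ((hE _ _ _ _ _ _ h1 h2).reindex (Fin.consEquiv fun _ => ι).symm).mono le_rfl (two_pow H _ _)
    have h4 : (fun b : Fin (δ + 1) → ι => ∏ j, y (b j)) = fun j =>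
        y ((Fin.consEquiv fun _ => ι).symm j).1 * ∏ l : Fin δ, y (((Fin.consEquiv fun _ => ι).symm j).2 l) := by
      funext b
      rw [Fin.prod_univ_succ]
      rfl
    rw [h4]
    exact h3

/-- subfamilies, with explicit constants -/
theorem gsys_sub' {σ κ : Type} [Fintype σ] [Fintype κ] [DecidableEq κ] {q : ℕ} {C : ℝ} {T : Polynomial ℤ} {y : σ → ℚ⟦X⟧}
    (h : GSys q C T y) (w : κ → ℚ⟦X⟧) (e : κ → σ) (hw : ∀ β, w β = y (e β)) (a : Polynomial ℤ) (M : σ → κ → Polynomial ℤ)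
    (hM : ∀ b, ps a * y b = ∑ β, ps (M b β) * w β) {n m : ℕ} {α μ : ℝ} (hα : 1 ≤ α) (ha : L1 n α a) (hμ : 1 ≤ μ)
    (hMm : ∀ b β, L1 m μ (M b β)) :
    GSys (n + q + m) (α * (((Fintype.card σ : ℝ) + 1) * (((q : ℝ) + 1) * (C * μ)))) (a * T) w := by
  have hC := h.one_le
  have hC0 : 0 < C := by linarith
  set N : ℝ := (Fintype.card σ : ℝ) + 1 with hN
  have hN1 : 1 ≤ N := by
    have : (0 : ℝ) ≤ (Fintype.card σ : ℝ) := by positivity
    linarith
  have hq1 : (1 : ℝ) ≤ (q : ℝ) + 1 := by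
    have : (0 : ℝ) ≤ (q : ℝ) := by positivity
    linarith
  set C' : ℝ := α * (N * (((q : ℝ) + 1) * (C * μ))) with hC'
  have hC'1 : 1 ≤ C' := by
    have h1 : 1 ≤ C * μ := one_le_mul_of_one_le_of_one_le hC hμ
    have h2 := one_le_mul_of_one_le_of_one_le hq1 h1
    have h3 := one_le_mul_of_one_le_of_one_le hN1 h2
    exact one_le_mul_of_one_le_of_one_le hα h3
  have hCC' : C ≤ C' := by
    have h1 : C ≤ C * μ := le_mul_of_one_le_right hC0.le hμ
    have h2 : C * μ ≤ ((q : ℝ) + 1) * (C * μ) := le_mul_of_one_le_left (by positivity) hq1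
    have h3 : ((q : ℝ) + 1) * (C * μ) ≤ N * (((q : ℝ) + 1) * (C * μ)) := le_mul_of_one_le_left (by positivity) hN1
    have h4 : N * (((q : ℝ) + 1) * (C * μ)) ≤ α * (N * (((q : ℝ) + 1) * (C * μ))) :=
      le_mul_of_one_le_left (by positivity) hα
    linarith
  have hT : L1 q (((q : ℝ) + 1) * C) T := L1.ofBd ⟨h.degT, h.sizeT⟩
  have haT := ha.mul hT
  refine ⟨hC'1, haT.1.trans (by omega), fun l => (haT.coeff_le l).trans ?_, fun i j => ?_, fun j => ?_,
    fun k => ?_⟩
  · rw [hC']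
    refine mul_le_mul_of_nonneg_left ?_ (by linarith)
    have h1 : ((q : ℝ) + 1) * C ≤ ((q : ℝ) + 1) * (C * μ) :=
      mul_le_mul_of_nonneg_left (le_mul_of_one_le_right hC0.le hμ) (by linarith)
    have h3 : ((q : ℝ) + 1) * (C * μ) ≤ N * (((q : ℝ) + 1) * (C * μ)) := le_mul_of_one_le_left (by positivity) hN1
    linarith
  · rw [hw]
    exact (h.size _ _).trans (pow_le_pow_left₀ hC0.le hCC' _)
  · obtain ⟨d, hd0, hd, hd'⟩ := h.den j
    refine ⟨d, hd0, hd.trans (pow_le_pow_left₀ hC0.le hCC' _), fun i l hl => ?_⟩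
    rw [hw]
    exact hd' _ l hl
  · obtain ⟨d, hd0, hdC, hd'⟩ := h.der k
    have hdC' : (d : ℝ) ≤ C' ^ (k + 1) := hdC.trans (pow_le_pow_left₀ hC0.le hCC' _)
    refine ⟨d, hd0, hdC', fun s hs => ?_⟩
    obtain ⟨G, g1, g2, g3⟩ := hd' s hs
    rcases Nat.eq_zero_or_pos s with rfl | hs0
    · refine ⟨fun i j => if i = j then Polynomial.C (d : ℤ) else 0, fun i j => ?_, fun i j l => ?_, fun i => ?_⟩
      · beta_reduce
        split_ifs <;> simp
      · beta_reduce
        split_ifs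
        · rw [Polynomial.coeff_C]
          split_ifs
          · push_cast
            rw [abs_of_nonneg (by positivity)]
            exact hdC'
          · simp only [Int.cast_zero, abs_zero]
            positivity
        · simp only [Polynomial.coeff_zero, Int.cast_zero, abs_zero]
          positivity
      · beta_reduce
        rw [pow_zero, one_mul, hd_zero, Finset.sum_eq_single i]
        · rw [if_pos rfl, ps_C]
          push_cast
          rfl
        · intro j _ hne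
          rw [if_neg hne.symm, ps_zero, zero_mul]
        · intro h2
          exact absurd (Finset.mem_univ _) h2
    · obtain ⟨r, rfl⟩ := Nat.exists_eq_succ_of_ne_zero hs0.ne'
      simp only [Nat.succ_eq_add_one] at hs g1 g2 g3 ⊢
      have hb : ∀ i j, L1 ((n + q + m) * (r + 1)) (α ^ r * ∑ _b : σ, ((((q * (r + 1) : ℕ) : ℝ) + 1) * C ^ (k + 1)) * μ)
          (a ^ r * ∑ b, G (e i) b * M b j) := by
        intro i j
        have h1 : L1 (q * (r + 1) + m) (∑ _b : σ, ((((q * (r + 1) : ℕ) : ℝ) + 1) * C ^ (k + 1)) * μ)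
            (∑ b, G (e i) b * M b j) := L1.sum _ fun b _ => (L1.ofBd ⟨g1 _ _, g2 _ _⟩).mul (hMm b j)
        refine ((ha.pow r).mul h1).mono ?_ le_rfl
        have e1 : n * r ≤ n * (r + 1) := Nat.mul_le_mul_left _ (Nat.le_succ r)
        have e2 : m ≤ m * (r + 1) := Nat.le_mul_of_pos_right m (Nat.succ_pos r)
        calc n * r + (q * (r + 1) + m) ≤ n * (r + 1) + (q * (r + 1) + m * (r + 1)) := by omega
          _ = _ := by ring
      have hfin : α ^ r * ∑ _b : σ, ((((q * (r + 1) : ℕ) : ℝ) + 1) * C ^ (k + 1)) * μ ≤ C' ^ (k + 1) := by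
        rw [Finset.sum_const, Finset.card_univ, nsmul_eq_mul]
        have b1 : α ^ r ≤ α ^ (k + 1) := pow_le_pow_right₀ hα (by omega)
        have b2 : (Fintype.card σ : ℝ) ≤ N ^ (k + 1) := by
          have : (Fintype.card σ : ℝ) ≤ N := by rw [hN]; linarith
          exact this.trans (le_self_pow₀ hN1 (Nat.succ_ne_zero k))
        have b3 : ((q * (r + 1) : ℕ) : ℝ) + 1 ≤ ((q : ℝ) + 1) ^ (k + 1) := by
          have c1 : (1 : ℝ) + ((r + 1 : ℕ) : ℝ) * q ≤ (1 + q) ^ (r + 1) :=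
            one_add_mul_le_pow (by linarith [show (0 : ℝ) ≤ q by positivity]) _
          have c2 : ((1 : ℝ) + q) ^ (r + 1) ≤ (1 + q) ^ (k + 1) :=
            pow_le_pow_right₀ (by linarith [show (0 : ℝ) ≤ q by positivity]) (by omega)
          push_cast at c1 ⊢
          have c3 : (q : ℝ) + 1 = 1 + q := by ring
          rw [c3]
          linarith
        have b4 : μ ≤ μ ^ (k + 1) := le_self_pow₀ hμ (Nat.succ_ne_zero k)
        calc α ^ r * ((Fintype.card σ : ℝ) * ((((q * (r + 1) : ℕ) : ℝ) + 1) * C ^ (k + 1) * μ)) ≤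
              α ^ (k + 1) * (N ^ (k + 1) * (((q : ℝ) + 1) ^ (k + 1) * C ^ (k + 1) * μ ^ (k + 1))) := by
              gcongr
          _ = C' ^ (k + 1) := by
              rw [hC', mul_pow, mul_pow, mul_pow, mul_pow]
              ring
      refine ⟨fun i j => a ^ r * ∑ b, G (e i) b * M b j, fun i j => (hb i j).1, fun i j l => ((hb i j).coeff_le l).trans hfin,
        fun i => ?_⟩
      rw [hw i]
      have h1 := g3 (e i)
      calc (d : ℚ⟦X⟧) * (ps (a * T) ^ (r + 1) * hd (r + 1) (y (e i))) =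
            ps a ^ (r + 1) * ((d : ℚ⟦X⟧) * (ps T ^ (r + 1) * hd (r + 1) (y (e i)))) := by
            rw [ps_mul, mul_pow]
            ring
        _ = ps a ^ r * ∑ b, ps (G (e i) b) * (ps a * y b) := by
            rw [h1, pow_succ, mul_assoc, Finset.mul_sum]
            congr 1
            refine Finset.sum_congr rfl fun b _ => ?_
            ring
        _ = ∑ j, ps (a ^ r * ∑ b, G (e i) b * M b j) * w j := by
            simp only [hM, Finset.mul_sum]
            rw [Finset.sum_comm]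
            refine Finset.sum_congr rfl fun j _ => ?_
            rw [ps_sum, Finset.sum_mul]
            refine Finset.sum_congr rfl fun b _ => ?_
            rw [ps_mul, ps_mul, ps_pow]
            ring

/-- subfamilies, with polynomially bounded constants -/
theorem sub_uni (q E₀ E₁ N : ℕ) : ∃ Q E : ℕ, ∀ (σ κ : Type) [Fintype σ] [Fintype κ] (H : ℕ) (T : Polynomial ℤ)
    (y : σ → ℚ⟦X⟧) (w : κ → ℚ⟦X⟧) (e : κ → σ) (a : Polynomial ℤ) (M : σ → κ → Polynomial ℤ), Fintype.card σ ≤ N →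
    GSys q (((H : ℝ) + 2) ^ E₀) T y → (∀ β, w β = y (e β)) → (∀ b, ps a * y b = ∑ β, ps (M b β) * w β) →
    Bd E₁ (((H : ℝ) + 2) ^ E₁) a → (∀ b β, Bd E₁ (((H : ℝ) + 2) ^ E₁) (M b β)) →
    GSys Q (((H : ℝ) + 2) ^ E) (a * T) w := by
  classical
  refine ⟨E₁ + q + E₁, (E₁ + 1 + E₁) + ((N + 1) + ((q + 1) + (E₀ + (E₁ + 1 + E₁)))), ?_⟩
  intro σ κ _ _ H T y w e a M hN h hw hM ha hMm
  have hX := hb1 H
  set X : ℝ := (H : ℝ) + 2 with hXd
  have hX0 : 0 ≤ X := by linarith
  have h1 := gsys_sub' h w e hw a M hM (n := E₁) (m := E₁) (α := ((E₁ : ℝ) + 1) * X ^ E₁) (μ := ((E₁ : ℝ) + 1) * X ^ E₁)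
    (one_le_mul_of_one_le_of_one_le (by linarith [show (0 : ℝ) ≤ E₁ by positivity]) (one_le_pow₀ hX)) (L1.ofBd ha)
    (one_le_mul_of_one_le_of_one_le (by linarith [show (0 : ℝ) ≤ E₁ by positivity]) (one_le_pow₀ hX))
    fun b β => L1.ofBd (hMm b β)
  refine h1.mono le_rfl ?_
  have e1 : ((E₁ : ℝ) + 1) * X ^ E₁ ≤ X ^ (E₁ + 1 + E₁) := by
    rw [pow_add]
    refine mul_le_mul_of_nonneg_right ?_ (by positivity)
    have := nat_le H (E₁ + 1)
    push_cast at this
    exact this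
  have e2 : (Fintype.card σ : ℝ) + 1 ≤ X ^ (N + 1) := by
    have h2 := nat_le H (N + 1)
    have h3 : (Fintype.card σ : ℝ) ≤ N := by exact_mod_cast hN
    push_cast at h2
    linarith
  have e3 : (q : ℝ) + 1 ≤ X ^ (q + 1) := by
    have h2 := nat_le H (q + 1)
    push_cast at h2
    exact h2
  rw [pow_add X (E₁ + 1 + E₁), pow_add X (N + 1), pow_add X (q + 1), pow_add X E₀]
  refine mul_le_mul e1 (mul_le_mul e2 (mul_le_mul e3 (mul_le_mul_of_nonneg_left e1 (by positivity)) (by positivity)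
    (by positivity)) (by positivity) (by positivity)) (by positivity) (by positivity)

/-- small polynomials do not vanish at `1 / t` -/
theorem aeval_ne {P : Polynomial ℤ} (hP : P ≠ 0) {C : ℝ} (hc : ∀ l, |((P.coeff l : ℤ) : ℝ)| ≤ C) {t : ℕ} (ht : C < t) :
    Polynomial.aeval (1 / (t : ℝ)) P ≠ 0 := by
  intro h0
  have hC0 : 0 ≤ C := (abs_nonneg _).trans (hc 0)
  have ht0 : (0 : ℝ) < t := by linarith
  rw [Polynomial.aeval_eq_sum_range] at h0
  have h1 : (∑ l ∈ Finset.range (P.natDegree + 1), P.coeff l * (t : ℤ) ^ (P.natDegree - l)) = 0 := by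
    have h2 : (((∑ l ∈ Finset.range (P.natDegree + 1), P.coeff l * (t : ℤ) ^ (P.natDegree - l) : ℤ)) : ℝ) = 0 := by
      push_cast
      have h3 : ∀ l ∈ Finset.range (P.natDegree + 1), ((P.coeff l : ℤ) : ℝ) * (t : ℝ) ^ (P.natDegree - l) =
          (t : ℝ) ^ P.natDegree * (P.coeff l • (1 / (t : ℝ)) ^ l) := by
        intro l hl
        rw [Finset.mem_range, Nat.lt_succ_iff] at hl
        have h4 : (t : ℝ) ^ P.natDegree = (t : ℝ) ^ (P.natDegree - l) * (t : ℝ) ^ l := by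
          rw [← pow_add, Nat.sub_add_cancel hl]
        rw [h4, zsmul_eq_mul, one_div, inv_pow]
        field_simp
      rw [Finset.sum_congr rfl h3, ← Finset.mul_sum, h0, mul_zero]
    exact_mod_cast h2
  rw [Finset.sum_range_succ, Nat.sub_self, pow_zero, mul_one] at h1
  have h2 : (t : ℤ) ∣ P.coeff P.natDegree := by
    have h3 : (t : ℤ) ∣ ∑ l ∈ Finset.range P.natDegree, P.coeff l * (t : ℤ) ^ (P.natDegree - l) := by
      refine Finset.dvd_sum fun l hl => ?_
      rw [Finset.mem_range] at hl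
      exact Dvd.dvd.mul_left (dvd_pow_self _ (by omega)) _
    exact (Int.dvd_add_right h3).1 (h1 ▸ dvd_zero _)
  have h3 : P.coeff P.natDegree ≠ 0 := by
    rw [Polynomial.coeff_natDegree]
    exact Polynomial.leadingCoeff_ne_zero.2 hP
  have h4 := Int.le_of_dvd (abs_pos.2 h3) ((dvd_abs _ _).2 h2)
  have h5 : ((t : ℤ) : ℝ) ≤ ((|P.coeff P.natDegree| : ℤ) : ℝ) := by exact_mod_cast h4
  rw [Int.cast_abs] at h5
  have h6 := hc P.natDegree
  push_cast at h5
  linarith

end Pool.Agent.Helper880_UN
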