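import Pool.Agent.Helper880_UN.Lift
import Pool.Agent.Helper880_ZP.Fn

/-!
# The transfer theorem with uniform constants
-/

set_option autoImplicit false
set_option linter.unusedSectionVars false
set_option linter.unusedVariables false
set_option maxHeartbeats 400000

open Matrix Module Filter PowerSeries

namespace Pool.Agent.Helper880_UN

open Pool.Agent.Helper880_R3
open Pool.Agent.Helper880_ZP
open Pool.Agent.Y113 (ev Cv GSys ps)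
open Pool.Agent.Y118.HV (Hv hh)
open Pool.Agent.Helper880_LF.NB hiding alg_core nrm
open Pool.Agent.Y118.UL (mk mk_eq mk_eq_zero mk_ne_zero mk_surj ev_ge eval_mk rep qc qc_mk algebraMap_eq U)
open Pool.Agent.Y119.HY (cm cm_pow cm_apply)
open Pool.Agent.Y119.HY renaming E → Ex, E_add → Ex_add, E_zero → Ex_zero, E_mul_neg → Ex_mul_neg, E_exp → Ex_exp

variable {n N r₀ : ℕ}

/-- **the transfer theorem with uniform constants** -/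
theorem transfer_uni (hn : 0 < n) {I : Type} {H : I → ℕ} {Z : I → Fin N → Matrix (Fin n) (Fin n) ℚ⟦X⟧}
    (hU : UF H fun i => zj (Z i)) {𝔤 : Submodule ℂ (Matrix (Fin n) (Fin n) ℂ)}
    (hI : ∀ i, ∀ X : Fin N → Matrix (Fin n) (Fin n) ℂ, (∀ j, X j ∈ 𝔤) → InfJ (Z i) X)
    {M : Matrix (Fin n) (Fin n) ℚ} (hM : M ^ n = 0) (hM𝔤 : ∀ Y ∈ 𝔤, cm M * Y - Y * cm M ∈ 𝔤)
    (r₀ s r : ℕ) (C₀ : Matrix (Fin r₀) (Fin r₀) ℂ) (C : Matrix (Fin n) (Fin n) ℂ) (hfew : Few s C₀ C)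
    (hs : s + (if M = 0 then 0 else 1) ≤ r)
    (Rl : Matrix (Ix r₀ n N) (Ix r₀ n N) ℂ → Submodule ℂ (Matrix (Ix r₀ n N) (Ix r₀ n N) ℂ) → Prop) (hRl : Compat Rl) :
    ∃ E : ℕ, ∀ (i : I) (t : ℕ), (H i + 2) ^ E ≤ t → ∀ (L : ℂ) (P : Matrix (Ix r₀ n N) (Ix r₀ n N) ℂ),
      P = Tot C₀ (fun j => C * (NormedSpace.exp ((-L) • cm M) * Hv (Z i j) t)) → P.det ≠ 0 →
      ∀ R : Submodule ℂ (Matrix (Ix r₀ n N) (Ix r₀ n N) ℂ), Rl P R →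
      finrank ℂ (Gc r₀ N C 𝔤) ≤ finrank ℂ (Gc r₀ N C 𝔤 ⊓ R : Submodule ℂ (Matrix (Ix r₀ n N) (Ix r₀ n N) ℂ)) + r := by
  classical
  have hMc : (cm M) ^ n = 0 := by
    rw [← cm_pow, hM]
    exact map_zero _
  by_contra hcon
  simp only [not_exists, not_forall] at hcon
  choose i t hH L P hP hPd R hR hbad using hcon
  set z : ℕ → Fin N → Matrix (Fin n) (Fin n) ℂ := fun k j => Hv (Z (i k) j) (t k) with hz
  set μ : ℕ → Fin N → ℂ := fun _ _ => 0 with hμ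
  -- the derivations
  have hder : ∀ l, ∀ A ∈ GU 𝔤, ∃ δ : Derivation (U ℚ) (U ℂ) (U ℂ),
      dm δ (gm fun k => Ex (cm M) (-(μ k l)) * z k l) = A * (gm fun k => Ex (cm M) (-(μ k l)) * z k l) ∧
      ∀ j, j ≠ l → dm δ (gm fun k => Ex (cm M) (-(μ k j)) * z k j) = 0 := by
    intro l A hA
    refine hder_seq hM hM𝔤 (fun d => ?_) l hA
    obtain ⟨E, hE⟩ := rel_uni hU d
    filter_upwards [ev_ge E] with k hk Y hY P hPd hP s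
    exact (hE (i k) (t k) ((Nat.pow_le_pow_right (by omega) hk).trans (hH k))).2 Y (hI _ Y hY) P hPd hP s
  have hμ0 : ∀ (k : ℕ) (j : Fin N), Ex (cm M) (-(μ k j)) * z k j = z k j := by
    intro k j
    rw [hμ]
    simp only
    rw [neg_zero, Ex_zero hMc, Matrix.one_mul]
  -- the period matrices
  have hper : ∀ k, P k = (Cb C₀ C * Zm (fun _ : Fin N => Ex (cm M) (-(L k)))) *
        Zm (fun j => Ex (cm M) (-(μ k j)) * z k j) := by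
    intro k
    rw [hP k, Matrix.mul_assoc, Zm_mul, Cb_Zm]
    unfold Tot
    congr 2
    funext j
    rw [hμ0, Ex_exp hMc]
  have hdet : ∀ k, (Cb (N := N) C₀ C).det ≠ 0 ∧ (Zm (r₀ := r₀) (fun _ : Fin N => Ex (cm M) (-(L k)))).det ≠ 0 ∧
      (Zm (r₀ := r₀) (fun j => Ex (cm M) (-(μ k j)) * z k j)).det ≠ 0 := by
    intro k
    have h2 := hPd k
    rw [hper k, Matrix.det_mul, Matrix.det_mul] at h2
    exact ⟨left_ne_zero_of_mul (left_ne_zero_of_mul h2), right_ne_zero_of_mul (left_ne_zero_of_mul h2), right_ne_zero_of_mul h2⟩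
  have hz0 : ∀ k j, (Ex (cm M) (-(μ k j)) * z k j).det ≠ 0 := by
    intro k j
    have h1 := (hdet k).2.2
    rw [Zm_det, Finset.prod_ne_zero_iff] at h1
    exact h1 j (Finset.mem_univ j)
  have hC0 : ∀ k, IsUnit (Cb C₀ C * Zm (fun _ : Fin N => Ex (cm M) (-(L k)))).det := by
    intro k
    rw [Matrix.det_mul]
    exact isUnit_iff_ne_zero.2 (mul_ne_zero (hdet k).1 (hdet k).2.1)
  obtain ⟨𝒩, h𝒩1, h𝒩2, h𝒩3⟩ := cst_dim hfew hM hs (hdet 0).1 (fun k => -(L k))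
  have hPe : P = fun k => (Cb C₀ C * Zm (fun _ : Fin N => Ex (cm M) (-(L k)))) *
        Zm (fun j => Ex (cm M) (-(μ k j)) * z k j) := funext hper
  have hmain := dim_core hn hz0 hder hC0 𝒩 h𝒩1 h𝒩2 h𝒩3 (R := R) (fun k => hRl.1 _ _ (hR k)) (fun δ => by
    rw [← hPe]
    exact hRl.2 P R hPd hR δ)
  obtain ⟨k, hk⟩ := hmain.exists
  refine hbad k ?_
  have h2 := cj_dim (hC0 k) hk
  rw [Gc_conj hM hM𝔤] at h2
  exact h2

/-- the two codimensions, with uniform constants -/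
theorem two_uni (hn : 0 < n) {I : Type} {H : I → ℕ} {Z : I → Fin N → Matrix (Fin n) (Fin n) ℚ⟦X⟧}
    (hU : UF H fun i => zj (Z i)) {𝔤 : Submodule ℂ (Matrix (Fin n) (Fin n) ℂ)}
    (hI : ∀ i, ∀ X : Fin N → Matrix (Fin n) (Fin n) ℂ, (∀ j, X j ∈ 𝔤) → InfJ (Z i) X)
    {M : Matrix (Fin n) (Fin n) ℚ} (hM : M ^ n = 0) (hM𝔤 : ∀ Y ∈ 𝔤, cm M * Y - Y * cm M ∈ 𝔤)
    (D r₀ s r : ℕ) (C₀ : Matrix (Fin r₀) (Fin r₀) ℂ) (C : Matrix (Fin n) (Fin n) ℂ) (lev₀ : Fin r₀ → ℤ)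
    (lev : Fin n → ℤ) (hfew : Few s C₀ C) (hs : s + (if M = 0 then 0 else 1) ≤ r) :
    ∃ E : ℕ, ∀ (i : I) (t : ℕ), (H i + 2) ^ E ≤ t → ∀ (L : ℂ) (P : Fin N → Matrix (Fin n) (Fin n) ℂ),
      P = (fun j => C * (NormedSpace.exp ((-L) • cm M) * Hv (Z i j) t)) → IsUnit (Tot C₀ P) →
      ∀ (𝔥 : Submodule ℂ (Matrix (Ix r₀ n N) (Ix r₀ n N) ℂ)), DefOver K₀ 𝔥 →
      ((∃ K : Subfield ℂ, FiniteDimensional ℚ K ∧ finrank ℚ K ≤ D ∧ DefOver K (dR (Tot C₀ P) 𝔥)) →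
        finrank ℂ (blS r₀ N (cgS C 𝔤)) ≤
          finrank ℂ (blS r₀ N (cgS C 𝔤) ⊓ nrm 𝔥 : Submodule ℂ (Matrix (Ix r₀ n N) (Ix r₀ n N) ℂ)) + r) ∧
      (Lie' 𝔥 → (∃ φ ∈ 𝔥, ∃ V ∈ upS ℂ (Lv N lev₀ lev), φ * (Tot C₀ P * (1 + V)) = Tot C₀ P * (1 + V) * Dg ℂ (Lv N lev₀ lev)) →
        finrank ℂ (blS r₀ N (cgS C 𝔤)) ≤
          finrank ℂ (blS r₀ N (cgS C 𝔤) ⊓ (𝔥 ⊔ cjS (Tot C₀ P) (ppS ℂ (Lv N lev₀ lev))) :
            Submodule ℂ (Matrix (Ix r₀ n N) (Ix r₀ n N) ℂ)) + r) := by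
  obtain ⟨E₁, h1⟩ := transfer_uni hn hU hI hM hM𝔤 r₀ s r C₀ C hfew hs (RelN D) (compat_N D)
  obtain ⟨E₂, h2⟩ := transfer_uni hn hU hI hM hM𝔤 r₀ s r C₀ C hfew hs (RelA (Lv N lev₀ lev)) (compat_A _)
  refine ⟨E₁ + E₂, fun i t ht L P hP hPu 𝔥 h𝔥 => ?_⟩
  have hPd : (Tot C₀ P).det ≠ 0 := ((Matrix.isUnit_iff_isUnit_det _).1 hPu).ne_zero
  have hw : ∀ E, E ≤ E₁ + E₂ → (H i + 2) ^ E ≤ t := fun E hE => (Nat.pow_le_pow_right (by omega) hE).trans ht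
  rw [blS_Gc]
  subst hP
  refine ⟨fun hK => ?_, fun hL hφ => ?_⟩
  · exact h1 i t (hw _ (Nat.le_add_right _ _)) L _ rfl hPd _ ⟨𝔥, h𝔥, hK, rfl⟩
  · exact h2 i t (hw _ (Nat.le_add_left _ _)) L _ rfl hPd _
      ⟨(Matrix.isUnit_iff_isUnit_det _).1 hPu, 𝔥, h𝔥, hL, hφ, rfl⟩

end Pool.Agent.Helper880_UN
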